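import Pool.Agent.K3h61.LW.Ideal

set_option autoImplicit false
open Polynomial Finset

namespace K3h61.LW

/-- the shift of real sequences indexed by the integers -/
noncomputable def E : Module.End ℝ (ℤ → ℝ) := LinearMap.funLeft ℝ ℝ (fun j : ℤ => j + 1)

lemma E_pow_apply (i : ℕ) (f : ℤ → ℝ) (j : ℤ) : (E ^ i) f j = f (j + i) := by
  induction i generalizing j with
  | zero => simp
  | succ i ih =>
    rw [pow_succ', Module.End.mul_apply]
    show ((E ^ i) f) (j + 1) = _
    rw [ih]
    congr 1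
    push_cast
    ring

lemma aeval_E_pow_apply (p : ℝ[X]) (h : ℕ) (f : ℤ → ℝ) (j : ℤ) :
    (aeval (E ^ h) p) f j = ∑ i ∈ range (p.natDegree + 1), p.coeff i * f (j + h * i) := by
  rw [aeval_eq_sum_range, LinearMap.sum_apply, Finset.sum_apply]
  refine Finset.sum_congr rfl fun i _ => ?_
  rw [LinearMap.smul_apply, Pi.smul_apply, ← pow_mul, E_pow_apply, smul_eq_mul]
  push_cast
  rfl

/-- polynomials killing a sequence -/
noncomputable def ann (S : ℤ → ℝ) : Ideal ℝ[X] where
  carrier := {p | (aeval E p) S = 0}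
  zero_mem' := by simp
  add_mem' := by
    intro a b ha hb
    simp only [Set.mem_ofPred_eq] at *
    rw [map_add, LinearMap.add_apply, ha, hb, add_zero]
  smul_mem' := by
    intro c x hx
    simp only [Set.mem_ofPred_eq] at *
    rw [smul_eq_mul, map_mul, Module.End.mul_apply, hx, map_zero]

lemma mem_ann {S : ℤ → ℝ} {p : ℝ[X]} : p ∈ ann S ↔ (aeval E p) S = 0 := Iff.rfl

/-- the operator `G(E ^ h)` -/
noncomputable def rc (G : ℤ[X]) (h : ℕ) (f : ℤ → ℝ) (j : ℤ) : ℝ :=
  ∑ i ∈ range (G.natDegree + 1), (G.coeff i : ℝ) * f (j + h * i)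

lemma rc_eq (G : ℤ[X]) (h : ℕ) (f : ℤ → ℝ) (j : ℤ) :
    rc G h f j = (aeval E (expand ℝ h (G.map (Int.castRingHom ℝ)))) f j := by
  rw [expand_aeval, aeval_E_pow_apply, rc]
  rw [natDegree_map_eq_of_injective (RingHom.injective_int (Int.castRingHom ℝ))]
  refine Finset.sum_congr rfl fun i _ => ?_
  rw [coeff_map]
  rfl

lemma rc_mem_ann (G : ℤ[X]) (h : ℕ) (f : ℤ → ℝ) :
    (∀ j, rc G h f j = 0) ↔ expand ℝ h (G.map (Int.castRingHom ℝ)) ∈ ann f := by
  rw [mem_ann]
  constructor
  · intro H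
    funext j
    rw [← rc_eq, H j]
    rfl
  · intro H j
    rw [rc_eq, H]
    rfl

lemma rc_comm (G G' : ℤ[X]) (h h' : ℕ) (f : ℤ → ℝ) (j : ℤ) :
    rc G h (rc G' h' f) j = rc G' h' (rc G h f) j := by
  have e1 : ∀ (G : ℤ[X]) (h : ℕ) (f : ℤ → ℝ), rc G h f =
      (aeval E (expand ℝ h (G.map (Int.castRingHom ℝ)))) f := by
    intro G h f
    funext j
    exact rc_eq G h f j
  rw [e1 G' h' f, e1 G h f, e1, e1]
  rw [← Module.End.mul_apply, ← Module.End.mul_apply, ← map_mul, ← map_mul, mul_comm]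

lemma rc_zero (G : ℤ[X]) (h : ℕ) (j : ℤ) : rc G h (fun _ => 0) j = 0 := by
  simp [rc]

lemma rc_sub (G : ℤ[X]) (h : ℕ) (f g : ℤ → ℝ) (j : ℤ) :
    rc G h (fun j => f j - g j) j = rc G h f j - rc G h g j := by
  simp only [rc, mul_sub, Finset.sum_sub_distrib]

/-- uniqueness -/
theorem ext_zero (G : ℤ[X]) (hm : G.Monic) (h0 : G.coeff 0 ≠ 0) (S : ℤ → ℝ)
    (hS : ∀ j, rc G 1 S j = 0) (u : ℤ)
    (hz : ∀ j, u ≤ j → j < u + G.natDegree → S j = 0) : ∀ j, S j = 0 := by
  set D := G.natDegree with hD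
  -- to the right
  have hr : ∀ k : ℕ, S (u + k) = 0 := by
    intro k
    induction k using Nat.strong_induction_on with
    | _ k ih =>
      by_cases hk : k < D
      · exact hz _ (by omega) (by omega)
      · have h1 := hS (u + k - D)
        rw [rc, Finset.sum_range_succ, Finset.sum_eq_zero, zero_add] at h1
        · have h2 : G.coeff G.natDegree = 1 := hm
          rw [h2, Int.cast_one, one_mul] at h1
          have h3 : u + k - D + ((1:ℕ):ℤ) * (G.natDegree : ℤ) = u + k := by
            rw [← hD]; push_cast; ring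
          rw [h3] at h1
          exact h1
        · intro i hi
          rw [Finset.mem_range, ← hD] at hi
          have h3 : u + (k : ℤ) - D + ((1:ℕ):ℤ) * i = u + ((k - D + i : ℕ) : ℤ) := by
            push_cast [Nat.cast_sub (not_lt.mp hk)]; ring
          rw [h3, ih _ (by omega), mul_zero]
  have hl : ∀ k : ℕ, S (u - k) = 0 := by
    intro k
    induction k using Nat.strong_induction_on with
    | _ k ih =>
      rcases Nat.eq_zero_or_pos k with rfl | hk
      · have := hr 0
        simpa using this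
      · have h1 := hS (u - k)
        rw [rc, Finset.sum_range_succ', Finset.sum_eq_zero, zero_add] at h1
        · have h3 : u - (k : ℤ) + ((1:ℕ):ℤ) * ((0 : ℕ) : ℤ) = u - k := by
            push_cast; ring
          rw [h3] at h1
          have h4 : ((G.coeff 0 : ℤ) : ℝ) ≠ 0 := by exact_mod_cast h0
          exact (mul_eq_zero.mp h1).resolve_left h4
        · intro i hi
          rcases Nat.lt_or_ge i k with hik | hik
          · have h3 : u - (k : ℤ) + ((1:ℕ):ℤ) * ((i + 1 : ℕ) : ℤ) = u - ((k - (i + 1) : ℕ) : ℤ) := by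
              push_cast [Nat.cast_sub (show i + 1 ≤ k from hik)]; ring
            rw [h3, ih _ (by omega), mul_zero]
          · have h3 : u - (k : ℤ) + ((1:ℕ):ℤ) * ((i + 1 : ℕ) : ℤ) = u + ((i + 1 - k : ℕ) : ℤ) := by
              push_cast [Nat.cast_sub (show k ≤ i + 1 by omega)]; ring
            rw [h3, hr, mul_zero]
  intro j
  rcases le_total u j with h | h
  · have := hr (j - u).toNat
    rwa [Int.toNat_of_nonneg (by omega), add_sub_cancel] at this
  · have := hl (u - j).toNat
    rwa [Int.toNat_of_nonneg (by omega), sub_sub_cancel] at this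

/-- existence of the extension -/
theorem exists_ext (G : ℤ[X]) (hm : G.Monic) (h0 : IsUnit (G.coeff 0)) (w : ℤ → ℤ) (u : ℤ) :
    ∃ R : ℤ → ℤ, (∀ j, u ≤ j → j < u + G.natDegree → R j = w j) ∧
      ∀ j, rc G 1 (fun j => (R j : ℝ)) j = 0 := by
  classical
  set r := AdjoinRoot.root G with hr
  have hru : IsUnit r := by
    have h1 : (aeval r) G = 0 := by
      rw [hr, AdjoinRoot.aeval_eq, AdjoinRoot.mk_self]
    have h2 : G = X * G.divX + C (G.coeff 0) := (X_mul_divX_add G).symm
    have h3 : r * (aeval r G.divX) + algebraMap ℤ _ (G.coeff 0) = 0 := by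
      have : (aeval r) (X * G.divX + C (G.coeff 0)) = 0 := by rw [← h2]; exact h1
      rwa [map_add, map_mul, aeval_X, aeval_C] at this
    have h4 : IsUnit (algebraMap ℤ (AdjoinRoot G) (G.coeff 0)) := h0.map _
    have h5 : IsUnit (r * (aeval r G.divX)) := by
      rw [eq_neg_of_add_eq_zero_left h3]
      exact h4.neg
    exact isUnit_of_mul_isUnit_left h5
  obtain ⟨U, hU⟩ := hru
  set pb := AdjoinRoot.powerBasis' hm with hpb
  have hdim : pb.dim = G.natDegree := AdjoinRoot.powerBasis'_dim hm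
  set ell : AdjoinRoot G →ₗ[ℤ] ℤ := pb.basis.constr ℤ (fun i => w (u + (i : ℕ))) with hell
  have hellb : ∀ i : ℕ, i < G.natDegree → ell (r ^ i) = w (u + i) := by
    intro i hi
    have h1 := pb.basis.constr_basis ℤ (fun i => w (u + (i : ℕ))) ⟨i, by rw [hdim]; exact hi⟩
    rw [pb.basis_eq_pow] at h1
    exact h1
  refine ⟨fun j => ell ((U ^ (j - u) : (AdjoinRoot G)ˣ) : AdjoinRoot G), ?_, ?_⟩
  · intro j h1 h2
    obtain ⟨k, hk⟩ := Int.eq_ofNat_of_zero_le (sub_nonneg.mpr h1)
    show ell _ = _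
    rw [hk, zpow_natCast, Units.val_pow_eq_pow_val, hU, hellb k (by omega)]
    congr 1
    omega
  · intro j
    have h1 : rc G 1 (fun j => ((ell ((U ^ (j - u) : (AdjoinRoot G)ˣ) : AdjoinRoot G) : ℤ) : ℝ)) j
        = ((∑ i ∈ range (G.natDegree + 1), G.coeff i *
            ell ((U ^ (j + i - u) : (AdjoinRoot G)ˣ) : AdjoinRoot G) : ℤ) : ℝ) := by
      rw [rc]
      push_cast
      refine Finset.sum_congr rfl fun i _ => ?_
      rw [one_mul]
    rw [h1]
    have h2 : ∑ i ∈ range (G.natDegree + 1), G.coeff i *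
            ell ((U ^ (j + i - u) : (AdjoinRoot G)ˣ) : AdjoinRoot G) = 0 := by
      have h3 : ∀ i ∈ range (G.natDegree + 1), G.coeff i *
            ell ((U ^ (j + i - u) : (AdjoinRoot G)ˣ) : AdjoinRoot G) =
            ell (((U ^ (j - u) : (AdjoinRoot G)ˣ) : AdjoinRoot G) * (G.coeff i • r ^ i)) := by
        intro i _
        rw [mul_smul_comm, map_smul, smul_eq_mul]
        congr 2
        have : j + (i : ℤ) - u = (j - u) + i := by ring
        rw [this, zpow_add, zpow_natCast, Units.val_mul, Units.val_pow_eq_pow_val, hU]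
      rw [Finset.sum_congr rfl h3, ← map_sum, ← Finset.mul_sum, ← aeval_eq_sum_range,
        hr, AdjoinRoot.aeval_eq, AdjoinRoot.mk_self, mul_zero, map_zero]
    rw [h2, Int.cast_zero]

end K3h61.LW
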