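import Mathlib

set_option autoImplicit false
open Finset

namespace K3h61.LW

/-- geometric sums of roots of unity -/
lemma geom_zero (Q : ℕ) (hQ : 0 < Q) (w : ℤ) (hw : ¬ (Q : ℤ) ∣ w) :
    ∑ x : Fin Q, Complex.exp (2 * Real.pi * Complex.I * ((x : ℕ) * w) / Q) = 0 := by
  set z := Complex.exp (2 * Real.pi * Complex.I * w / Q) with hz
  have hQ0 : (Q : ℂ) ≠ 0 := by exact_mod_cast hQ.ne'
  have h1 : ∀ x : Fin Q, Complex.exp (2 * Real.pi * Complex.I * ((x : ℕ) * w) / Q) = z ^ (x : ℕ) := by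
    intro x
    rw [hz, ← Complex.exp_nat_mul]
    congr 1
    ring
  rw [Finset.sum_congr rfl fun x _ => h1 x]
  rw [Fin.sum_univ_eq_sum_range (fun i => z ^ i) Q]
  have hz1 : z ≠ 1 := by
    intro h
    rw [hz, Complex.exp_eq_one_iff] at h
    obtain ⟨n, hn⟩ := h
    have hpi : (2 * Real.pi * Complex.I : ℂ) ≠ 0 := Complex.two_pi_I_ne_zero
    apply hw
    refine ⟨n, ?_⟩
    have h2 : (2 * Real.pi * Complex.I : ℂ) * w = (2 * Real.pi * Complex.I) * (Q * n) := by
      field_simp at hn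
      linear_combination (2 * Real.pi * Complex.I : ℂ) * hn
    have h3 := mul_left_cancel₀ hpi h2
    exact_mod_cast h3
  rw [geom_sum_eq hz1]
  have h4 : z ^ Q = 1 := by
    rw [hz, ← Complex.exp_nat_mul, Complex.exp_eq_one_iff]
    refine ⟨w, ?_⟩
    field_simp
  rw [h4, sub_self, zero_div]

theorem fourier (M N Q : ℕ) (hQ : 0 < Q) (φ : Fin M → ℕ → ℤ)
    (heven : ∀ k, Even (∑ j ∈ range N, φ k j)) (hsmall : ∀ k, ∑ j ∈ range N, |φ k j| < 2 * Q)
    (hpos : 0 < ∑ θ : Fin M → Fin Q, ∏ j ∈ range N,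
      Real.cos (Real.pi * ((∑ k, ((θ k : ℕ) : ℝ) * φ k j) / Q))) :
    ∃ ε : ℕ → ℤ, (∀ j, ε j = 1 ∨ ε j = -1) ∧ ∀ k, ∑ j ∈ range N, ε j * φ k j = 0 := by
  classical
  by_contra hcon
  push Not at hcon
  -- signs attached to a set
  let sg : Finset ℕ → ℕ → ℤ := fun t j => if j ∈ t then 1 else -1
  have hsg : ∀ t j, sg t j = 1 ∨ sg t j = -1 := by
    intro t j
    by_cases h : j ∈ t <;> simp [sg, h]
  have hwev : ∀ t : Finset ℕ, ∀ k, ∃ w : ℤ, ∑ j ∈ range N, sg t j * φ k j = 2 * w := by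
    intro t k
    have h1 : Even (∑ j ∈ range N, sg t j * φ k j) := by
      have h2 : Even (∑ j ∈ range N, (sg t j * φ k j - φ k j)) := by
        refine Finset.even_sum _ fun j _ => ?_
        rcases hsg t j with h | h <;> rw [h]
        · simp
        · exact ⟨-φ k j, by ring⟩
      rw [Finset.sum_sub_distrib] at h2
      have h3 := h2.add (heven k)
      rwa [sub_add_cancel] at h3
    obtain ⟨w, hw⟩ := h1
    exact ⟨w, by rw [hw]; ring⟩
  choose w hw using hwev
  have hwsmall : ∀ t k, |w t k| < Q := by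
    intro t k
    have h1 : |∑ j ∈ range N, sg t j * φ k j| ≤ ∑ j ∈ range N, |φ k j| := by
      refine (Finset.abs_sum_le_sum_abs _ _).trans (Finset.sum_le_sum fun j _ => ?_)
      rw [abs_mul]
      rcases hsg t j with h | h <;> rw [h] <;> simp
    rw [hw t k, abs_mul] at h1
    have h2 := hsmall k
    have h3 : |(2 : ℤ)| = 2 := rfl
    rw [h3] at h1
    linarith
  have hwnz : ∀ t, ∃ k, ¬ (Q : ℤ) ∣ w t k := by
    intro t
    obtain ⟨k, hk⟩ := hcon (sg t) (hsg t)
    refine ⟨k, fun hd => hk ?_⟩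
    rw [hw t k, Int.eq_zero_of_abs_lt_dvd hd (hwsmall t k), mul_zero]
  -- the expansion
  have hexp : ∀ θ : Fin M → Fin Q,
      (((∏ j ∈ range N, Real.cos (Real.pi * ((∑ k, ((θ k : ℕ) : ℝ) * φ k j) / Q))) : ℝ) : ℂ) * 2 ^ N
      = ∑ t ∈ (range N).powerset,
        ∏ k, Complex.exp (2 * Real.pi * Complex.I * ((θ k : ℕ) * w t k) / Q) := by
    intro θ
    set P : ℕ → ℝ := fun j => (∑ k, ((θ k : ℕ) : ℝ) * φ k j) / Q with hP
    have e1 : (((∏ j ∈ range N, Real.cos (Real.pi * P j)) : ℝ) : ℂ) * 2 ^ N =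
        ∏ j ∈ range N, (Complex.exp (Real.pi * P j * Complex.I) +
          Complex.exp (-(Real.pi * P j * Complex.I))) := by
      rw [← Finset.card_range N, ← Finset.prod_const, Complex.ofReal_prod, Finset.card_range,
        ← Finset.prod_mul_distrib]
      refine Finset.prod_congr rfl fun j _ => ?_
      rw [Complex.ofReal_cos, Complex.cos]
      push_cast
      rw [neg_mul]
      ring
    rw [e1, Finset.prod_add]
    refine Finset.sum_congr rfl fun t ht => ?_
    rw [Finset.mem_powerset] at ht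
    rw [← Complex.exp_sum, ← Complex.exp_sum, ← Complex.exp_sum, ← Complex.exp_add]
    congr 1
    have e2 : ∑ j ∈ t, (Real.pi * P j * Complex.I : ℂ) +
        ∑ j ∈ range N \ t, (-(Real.pi * P j * Complex.I) : ℂ) =
        ∑ j ∈ range N, (sg t j : ℂ) * (Real.pi * P j * Complex.I) := by
      rw [← Finset.sum_sdiff ht, add_comm]
      congr 1
      · refine Finset.sum_congr rfl fun j hj => ?_
        rw [Finset.mem_sdiff] at hj
        simp [sg, hj.2]
      · refine Finset.sum_congr rfl fun j hj => ?_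
        simp [sg, hj]
    rw [e2]
    have e3 : ∑ j ∈ range N, (sg t j : ℂ) * (Real.pi * P j * Complex.I) =
        ∑ k, (Real.pi * Complex.I / Q) * ((θ k : ℕ) : ℂ) *
          (((∑ j ∈ range N, sg t j * φ k j : ℤ)) : ℂ) := by
      have e4 : ∀ k, (Real.pi * Complex.I / Q) * ((θ k : ℕ) : ℂ) *
          (((∑ j ∈ range N, sg t j * φ k j : ℤ)) : ℂ) = ∑ j ∈ range N,
            (Real.pi * Complex.I / Q) * ((θ k : ℕ) : ℂ) * ((sg t j : ℂ) * (φ k j : ℂ)) := by
        intro k
        push_cast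
        rw [Finset.mul_sum]
      rw [Finset.sum_congr rfl fun k _ => e4 k, Finset.sum_comm]
      refine Finset.sum_congr rfl fun j _ => ?_
      simp only [hP]
      push_cast
      rw [Finset.sum_div, Finset.mul_sum, Finset.sum_mul, Finset.mul_sum]
      refine Finset.sum_congr rfl fun k _ => ?_
      ring
    rw [e3]
    refine Finset.sum_congr rfl fun k _ => ?_
    rw [hw t k]
    push_cast
    ring
  have hsum : (((∑ θ : Fin M → Fin Q, ∏ j ∈ range N,
      Real.cos (Real.pi * ((∑ k, ((θ k : ℕ) : ℝ) * φ k j) / Q))) : ℝ) : ℂ) * 2 ^ N = 0 := by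
    rw [Complex.ofReal_sum, Finset.sum_mul, Finset.sum_congr rfl fun θ _ => hexp θ,
      Finset.sum_comm]
    refine Finset.sum_eq_zero fun t _ => ?_
    have e1 := Finset.prod_univ_sum (fun _ : Fin M => (Finset.univ : Finset (Fin Q)))
      (fun k x => Complex.exp (2 * Real.pi * Complex.I * ((x : ℕ) * w t k) / Q))
    rw [Fintype.piFinset_univ] at e1
    rw [← e1]
    obtain ⟨k, hk⟩ := hwnz t
    exact Finset.prod_eq_zero (Finset.mem_univ k) (geom_zero Q hQ _ hk)
  have h2 : ((2 : ℂ) ^ N) ≠ 0 := pow_ne_zero _ two_ne_zero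
  have h3 := (mul_eq_zero.mp hsum).resolve_right h2
  have h4 : (∑ θ : Fin M → Fin Q, ∏ j ∈ range N,
      Real.cos (Real.pi * ((∑ k, ((θ k : ℕ) : ℝ) * φ k j) / Q))) = 0 := by
    exact_mod_cast h3
  linarith

/-- the cosine away from the integers -/
lemma abs_cos_le (x η : ℝ) (hη : 0 ≤ η) (h : η ≤ |x - round x|) :
    |Real.cos (Real.pi * x)| ≤ Real.exp (-(2 * η ^ 2)) := by
  set y := x - round x with hy
  have hy2 : |y| ≤ 1 / 2 := abs_sub_round x
  have h1 : |Real.cos (Real.pi * x)| = |Real.cos (Real.pi * y)| := by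
    have h2 : Real.pi * x = Real.pi * y + round x * Real.pi := by rw [hy]; ring
    rw [h2, Real.cos_add_int_mul_pi, abs_mul]
    rcases Int.even_or_odd (round x) with h | h
    · rw [h.neg_one_zpow]; simp
    · rw [h.neg_one_zpow]; simp
  have hpi := Real.pi_pos
  have h3 : 2 * |y| ≤ |Real.sin (Real.pi * y)| := by
    have h4 : |Real.sin (Real.pi * y)| = Real.sin (Real.pi * |y|) := by
      rcases le_total 0 y with h | h
      · rw [abs_of_nonneg h]
        apply abs_of_nonneg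
        apply Real.sin_nonneg_of_nonneg_of_le_pi (by positivity)
        rw [abs_of_nonneg h] at hy2
        nlinarith
      · rw [abs_of_nonpos h] at hy2 ⊢
        rw [mul_neg, Real.sin_neg]
        apply abs_of_nonpos
        have : 0 ≤ Real.sin (Real.pi * (-y)) := by
          apply Real.sin_nonneg_of_nonneg_of_le_pi
          · nlinarith
          · nlinarith
        rw [mul_neg, Real.sin_neg] at this
        linarith
    rw [h4]
    have h5 := Real.mul_le_sin (x := Real.pi * |y|) (by positivity) (by nlinarith)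
    calc 2 * |y| = 2 / Real.pi * (Real.pi * |y|) := by field_simp
      _ ≤ _ := h5
  have h6 : Real.cos (Real.pi * y) ^ 2 ≤ Real.exp (-(2 * η ^ 2)) ^ 2 := by
    have h7 : Real.cos (Real.pi * y) ^ 2 = 1 - Real.sin (Real.pi * y) ^ 2 := Real.cos_sq' _
    have h8 : (2 * η) ^ 2 ≤ Real.sin (Real.pi * y) ^ 2 := by
      rw [← sq_abs (Real.sin (Real.pi * y))]
      have : 2 * η ≤ |Real.sin (Real.pi * y)| := by linarith
      exact pow_le_pow_left₀ (by positivity) this 2
    have h9 : 1 - 4 * η ^ 2 ≤ Real.exp (-(4 * η ^ 2)) := by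
      have := Real.add_one_le_exp (-(4 * η ^ 2))
      linarith
    have h10 : Real.exp (-(2 * η ^ 2)) ^ 2 = Real.exp (-(4 * η ^ 2)) := by
      rw [← Real.exp_nat_mul]
      congr 1
      push_cast
      ring
    rw [h7, h10]
    nlinarith
  rw [h1]
  exact abs_le_of_sq_le_sq' h6 (Real.exp_pos _).le |> fun h => abs_le.mpr h

lemma minor (N : ℕ) (P : ℕ → ℝ) (η : ℝ) (hη : 0 ≤ η) (s : Finset ℕ) (hs : s ⊆ range N)
    (hbad : ∀ j ∈ s, η ≤ |P j - round (P j)|) :
    |∏ j ∈ range N, Real.cos (Real.pi * P j)| ≤ Real.exp (-(2 * η ^ 2)) ^ s.card := by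
  rw [Finset.abs_prod, ← Finset.prod_sdiff hs]
  have h1 : ∏ j ∈ range N \ s, |Real.cos (Real.pi * P j)| ≤ 1 :=
    Finset.prod_le_one (fun _ _ => abs_nonneg _) (fun _ _ => Real.abs_cos_le_one _)
  have h2 : ∏ j ∈ s, |Real.cos (Real.pi * P j)| ≤ Real.exp (-(2 * η ^ 2)) ^ s.card := by
    rw [← Finset.prod_const]
    exact Finset.prod_le_prod (fun _ _ => abs_nonneg _) (fun j hj => abs_cos_le _ _ hη (hbad j hj))
  calc _ ≤ 1 * Real.exp (-(2 * η ^ 2)) ^ s.card := by
        apply mul_le_mul h1 h2 (Finset.prod_nonneg fun _ _ => abs_nonneg _) zero_le_one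
    _ = _ := one_mul _

lemma major (N : ℕ) (P : ℕ → ℝ) (R : ℕ → ℤ) (hR : Even (∑ j ∈ range N, R j))
    (h : ∀ j ∈ range N, |P j - R j| < 1 / 2) :
    0 ≤ ∏ j ∈ range N, Real.cos (Real.pi * P j) := by
  have h1 : ∀ j ∈ range N, Real.cos (Real.pi * P j) =
      (-1) ^ (R j) * Real.cos (Real.pi * (P j - R j)) := by
    intro j _
    have h2 : Real.pi * P j = Real.pi * (P j - R j) + R j * Real.pi := by ring
    rw [h2, Real.cos_add_int_mul_pi]
  rw [Finset.prod_congr rfl h1, Finset.prod_mul_distrib]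
  have h3 : ∏ j ∈ range N, ((-1 : ℝ)) ^ (R j) = (-1) ^ (∑ j ∈ range N, R j) := by
    clear hR h h1
    induction N with
    | zero => simp
    | succ N ih => rw [Finset.prod_range_succ, Finset.sum_range_succ, ih, zpow_add₀ (by norm_num)]
  rw [h3, hR.neg_one_zpow, one_mul]
  refine Finset.prod_nonneg fun j hj => ?_
  have h4 := abs_lt.mp (h j hj)
  have hpi := Real.pi_pos
  apply Real.cos_nonneg_of_mem_Icc
  constructor <;> nlinarith [h4.1, h4.2]

end K3h61.LW
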