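import Mathlib

set_option autoImplicit false
open Polynomial Finset

namespace K3h61.LW

/-- vanishing moments give divisibility by a power of `X - 1` -/
lemma dvd_of_moments {A : Type*} [CommRing A] (p : A[X]) (M : ℕ)
    (h : ∀ k < M, (hasseDeriv k p).eval 1 = 0) : (X - 1 : A[X]) ^ M ∣ p := by
  have h1 : (X : A[X]) ^ M ∣ taylor 1 p := by
    rw [X_pow_dvd_iff]
    intro k hk
    rw [taylor_coeff]
    exact h k hk
  obtain ⟨q, hq⟩ := h1
  have h2 : taylor (-1) (taylor 1 p) = p := by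
    rw [taylor_taylor]
    simp
  rw [← h2, hq, taylor_mul]
  refine Dvd.dvd.mul_right ?_ _
  have h3 : taylor (-1 : A) (X ^ M : A[X]) = (X - 1) ^ M := by
    rw [taylor_apply]
    simp [sub_eq_add_neg]
  rw [h3]

lemma hasse_sum {A : Type*} [CommRing A] (N k : ℕ) (c : ℕ → A) :
    (hasseDeriv k (∑ j ∈ range N, C (c j) * X ^ j)).eval 1 =
      ∑ j ∈ range N, c j * (j.choose k : A) := by
  rw [map_sum, eval_finsetSum]
  refine Finset.sum_congr rfl fun j _ => ?_
  rw [C_mul_X_pow_eq_monomial, hasseDeriv_monomial, eval_monomial, one_pow, mul_one, mul_comm]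

lemma coeff_sum_range {A : Type*} [CommRing A] (N i : ℕ) (c : ℕ → A) :
    (∑ j ∈ range N, C (c j) * X ^ j).coeff i = if i < N then c i else 0 := by
  rw [finsetSum_coeff]
  simp only [coeff_C_mul_X_pow]
  rw [Finset.sum_ite_eq]
  simp only [Finset.mem_range]

lemma sum_choose' (n k : ℕ) : ∑ s ∈ range n, s.choose k = n.choose (k + 1) := by
  induction n with
  | zero => simp
  | succ n ih => rw [Finset.sum_range_succ, ih, Nat.choose_succ_succ, add_comm]

theorem exists_g (m D : ℕ) (hD : 2 ≤ D) (hc : D ^ (m * (m + 1)) < 2 ^ D) :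
    ∃ g : ℤ[X], g ≠ 0 ∧ (X - 1) ^ m ∣ g ∧ g.natDegree < D ∧ ∀ i, |g.coeff i| ≤ 1 := by
  classical
  -- pigeonhole
  obtain ⟨t, ht, t', ht', hne, heq⟩ := Finset.exists_ne_map_eq_of_card_lt_of_maps_to
    (s := (range D).powerset)
    (t := Fintype.piFinset (fun _ : Fin m => range (D ^ (m + 1))))
    (f := fun t (k : Fin m) => ∑ j ∈ t, j.choose k) (by
      rw [Fintype.card_piFinset, Finset.card_powerset, Finset.card_range]
      simp only [Finset.card_range, Finset.prod_const, Finset.card_univ, Fintype.card_fin]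
      rw [← pow_mul, mul_comm (m + 1) m]
      exact hc) (by
      intro t ht
      rw [Finset.mem_coe, Finset.mem_powerset] at ht
      rw [Finset.mem_coe, Fintype.mem_piFinset]
      intro k
      rw [Finset.mem_range]
      calc ∑ j ∈ t, j.choose k ≤ ∑ j ∈ range D, j.choose k :=
            Finset.sum_le_sum_of_subset ht
        _ = D.choose (k + 1) := sum_choose' _ _
        _ ≤ D ^ ((k : ℕ) + 1) := Nat.choose_le_pow _ _
        _ ≤ D ^ m := Nat.pow_le_pow_right (by omega) k.2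
        _ < D ^ (m + 1) := Nat.pow_lt_pow_right (by omega) (by omega))
  rw [Finset.mem_powerset] at ht ht'
  set c : ℕ → ℤ := fun j => (if j ∈ t then 1 else 0) - (if j ∈ t' then 1 else 0) with hcdef
  set g : ℤ[X] := ∑ j ∈ range D, C (c j) * X ^ j with hg
  have hcoeff : ∀ i, g.coeff i = if i < D then c i else 0 := fun i => coeff_sum_range D i c
  refine ⟨g, ?_, ?_, ?_, ?_⟩
  · intro h0
    apply hne
    ext i
    have h1 := hcoeff i
    rw [h0, coeff_zero] at h1
    by_cases hi : i < D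
    · rw [if_pos hi] at h1
      simp only [hcdef] at h1
      by_cases h2 : i ∈ t <;> by_cases h3 : i ∈ t' <;> simp [h2, h3] at h1 ⊢
    · constructor
      · intro h2; exact absurd (Finset.mem_range.mp (ht h2)) hi
      · intro h2; exact absurd (Finset.mem_range.mp (ht' h2)) hi
  · apply dvd_of_moments
    intro k hk
    rw [hg, hasse_sum]
    have h1 : ∀ s : Finset ℕ, s ⊆ range D →
        ∑ j ∈ range D, (if j ∈ s then (1 : ℤ) else 0) * (j.choose k : ℤ) = ∑ j ∈ s, (j.choose k : ℤ) := by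
      intro s hs
      simp only [ite_mul, one_mul, zero_mul]
      rw [Finset.sum_ite_mem, Finset.inter_eq_right.mpr hs]
    simp only [hcdef, sub_mul, Finset.sum_sub_distrib]
    rw [h1 t ht, h1 t' ht']
    have h2 := congrFun heq ⟨k, hk⟩
    simp only at h2
    have h3 : ((∑ j ∈ t, j.choose k : ℕ) : ℤ) = ((∑ j ∈ t', j.choose k : ℕ) : ℤ) := by
      rw [h2]
    push_cast at h3
    rw [h3, sub_self]
  · rcases eq_or_ne g 0 with h | h
    · rw [h, natDegree_zero]; omega
    · rw [natDegree_lt_iff_degree_lt h, degree_lt_iff_coeff_zero]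
      intro i hi
      rw [hcoeff, if_neg (by omega)]
  · intro i
    rw [hcoeff]
    by_cases hi : i < D
    · rw [if_pos hi]
      simp only [hcdef]
      by_cases h2 : i ∈ t <;> by_cases h3 : i ∈ t' <;> simp [h2, h3]
    · rw [if_neg hi]; simp

lemma int_unit_of_abs_le_one (a : ℤ) (h : |a| ≤ 1) (h0 : a ≠ 0) : a = 1 ∨ a = -1 := by
  rw [abs_le] at h
  omega

theorem exists_G (m D : ℕ) (hm : 1 ≤ m) (hD : 2 ≤ D) (hc : D ^ (m * (m + 1)) < 2 ^ D) :
    ∃ G : ℤ[X], G.Monic ∧ IsUnit (G.coeff 0) ∧ (X - 1) ^ m ∣ G ∧ 1 ≤ G.natDegree ∧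
      G.natDegree < D ∧ ∀ i, |G.coeff i| ≤ 1 := by
  obtain ⟨g, hg0, hgd, hgn, hgc⟩ := exists_g m D hD hc
  -- remove the power of `X`
  set k := g.natTrailingDegree with hk
  obtain ⟨g', hg'⟩ : (X : ℤ[X]) ^ k ∣ g := by
    rw [X_pow_dvd_iff]
    intro i hi
    exact coeff_eq_zero_of_lt_natTrailingDegree hi
  have hcoe : ∀ i, g'.coeff i = g.coeff (i + k) := by
    intro i
    rw [hg', mul_comm, coeff_mul_X_pow]
  have hg'0 : g' ≠ 0 := by
    rintro rfl
    rw [mul_zero] at hg'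
    exact hg0 hg'
  have hg'c0 : g'.coeff 0 ≠ 0 := by
    rw [hcoe, zero_add]
    exact mt trailingCoeff_eq_zero.mp hg0
  have hg'c : ∀ i, |g'.coeff i| ≤ 1 := fun i => by rw [hcoe]; exact hgc _
  have hg'd : (X - 1) ^ m ∣ g' := by
    have h1 : IsCoprime ((X - 1 : ℤ[X]) ^ m) (X ^ k) := by
      apply IsCoprime.pow
      exact ⟨-1, 1, by ring⟩
    rw [hg'] at hgd
    exact h1.dvd_of_dvd_mul_left hgd
  have hg'n : g'.natDegree < D := by
    refine lt_of_le_of_lt ?_ hgn
    rw [hg', natDegree_mul (pow_ne_zero _ X_ne_zero) hg'0]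
    omega
  have hlead := int_unit_of_abs_le_one _ (hg'c g'.natDegree) (by
    rw [coeff_natDegree]; exact mt leadingCoeff_eq_zero.mp hg'0)
  have hmonic_deg : ∀ G : ℤ[X], G ≠ 0 → (X - 1) ^ m ∣ G → 1 ≤ G.natDegree := by
    intro G hG hd
    have h1 := natDegree_le_of_dvd hd hG
    have h2 : ((X - 1 : ℤ[X]) ^ m).natDegree = m := by
      have : (X - 1 : ℤ[X]) = X - C 1 := by simp
      rw [this, natDegree_pow, natDegree_X_sub_C, mul_one]
    omega
  rw [coeff_natDegree] at hlead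
  rcases hlead with h | h
  · refine ⟨g', h, ?_, hg'd, hmonic_deg g' hg'0 hg'd, hg'n, hg'c⟩
    exact Int.isUnit_iff.mpr (int_unit_of_abs_le_one _ (hg'c 0) hg'c0)
  · refine ⟨-g', ?_, ?_, (dvd_neg).mpr hg'd, ?_, ?_, ?_⟩
    · rw [Monic, leadingCoeff_neg, h, neg_neg]
    · rw [coeff_neg]
      exact (Int.isUnit_iff.mpr (int_unit_of_abs_le_one _ (hg'c 0) hg'c0)).neg
    · rw [natDegree_neg]; exact hmonic_deg g' hg'0 hg'd
    · rw [natDegree_neg]; exact hg'n
    · intro i; rw [coeff_neg, abs_neg]; exact hg'c i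

/-- the numerical condition for `m = 2 ^ a`, `D = 2 ^ (3 a)` -/
lemma numer (a : ℕ) (ha : 4 ≤ a) :
    (2 ^ (3 * a)) ^ (2 ^ a * (2 ^ a + 1)) < 2 ^ (2 ^ (3 * a)) := by
  rw [← pow_mul]
  apply Nat.pow_lt_pow_right (by norm_num)
  have h1 : 3 * a * (2 ^ a + 1) < 2 ^ a * 2 ^ a := by
    induction a, ha using Nat.le_induction with
    | base => norm_num
    | succ a ha ih =>
      have h2 : a + 1 ≤ 2 * a := by omega
      calc 3 * (a + 1) * (2 ^ (a + 1) + 1) ≤ 3 * (2 * a) * (2 * (2 ^ a + 1)) := by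
            apply Nat.mul_le_mul
            · omega
            · rw [pow_succ]; omega
        _ = 4 * (3 * a * (2 ^ a + 1)) := by ring
        _ < 4 * (2 ^ a * 2 ^ a) := by omega
        _ = 2 ^ (a + 1) * 2 ^ (a + 1) := by ring
  calc 3 * a * (2 ^ a * (2 ^ a + 1)) = 2 ^ a * (3 * a * (2 ^ a + 1)) := by ring
    _ < 2 ^ a * (2 ^ a * 2 ^ a) := Nat.mul_lt_mul_of_pos_left h1 (by positivity)
    _ = 2 ^ (3 * a) := by rw [← pow_add, ← pow_add]; congr 1; ring

end K3h61.LW
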