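import Mathlib

set_option autoImplicit false
open Polynomial

namespace K3h61.LW

/-- the set of `t`-th powers of the dilations `G (X ^ h)`, `1 ≤ h ≤ H` -/
def dil (G : ℝ[X]) (H t : ℕ) : Set ℝ[X] := {f | ∃ h : ℕ, 1 ≤ h ∧ h ≤ H ∧ f = (expand ℝ h G) ^ t}

lemma root_lemma (G : ℝ[X]) (hG : G ≠ 0) (h0 : G.coeff 0 ≠ 0) (I : Ideal ℝ[X])
    (hI : ∀ h : ℕ, 1 ≤ h → expand ℝ h G ∈ I) :
    (X ^ (G.natDegree.factorial) - 1 : ℝ[X]) ∈ I.radical := by
  rw [Ideal.radical_eq_sInf, Submodule.mem_sInf]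
  rintro P ⟨hIP, hP⟩
  have hP' : Ideal.IsPrime P := hP
  set x : ℝ[X] ⧸ P := Ideal.Quotient.mk P X with hx
  have key : ∀ h : ℕ, 1 ≤ h → aeval (x ^ h) G = 0 := by
    intro h hh
    have h1 : Ideal.Quotient.mk P (expand ℝ h G) = 0 :=
      Ideal.Quotient.eq_zero_iff_mem.mpr (hIP (hI h hh))
    have h2 : aeval (X ^ h : ℝ[X]) G = expand ℝ h G := by
      rw [Polynomial.expand_eq_comp_X_pow]
      rfl
    have h3 : aeval ((Ideal.Quotient.mkₐ ℝ P) (X ^ h : ℝ[X])) G
        = (Ideal.Quotient.mkₐ ℝ P) (aeval (X ^ h : ℝ[X]) G) :=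
      Polynomial.aeval_algHom_apply _ _ _
    rw [h2] at h3
    have h4 : (Ideal.Quotient.mkₐ ℝ P) (X ^ h : ℝ[X]) = x ^ h := by
      rw [map_pow]
      rfl
    rw [h4] at h3
    rw [h3]
    exact h1
  -- the mapped polynomial
  set G' : (ℝ[X] ⧸ P)[X] := G.map (algebraMap ℝ (ℝ[X] ⧸ P)) with hG'
  have hG'0 : G' ≠ 0 := by
    rw [hG', Ne, Polynomial.map_eq_zero_iff (algebraMap ℝ (ℝ[X] ⧸ P)).injective]
    exact hG
  have hroot : ∀ h : ℕ, 1 ≤ h → x ^ h ∈ G'.roots := by
    intro h hh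
    rw [mem_roots hG'0, IsRoot.def, hG', eval_map_algebraMap]
    exact key h hh
  have hx0 : x ≠ 0 := by
    intro hx0
    have h1 := key 1 le_rfl
    rw [hx0, pow_one] at h1
    rw [← coeff_zero_eq_aeval_zero'] at h1
    rw [map_eq_zero_iff _ (algebraMap ℝ (ℝ[X] ⧸ P)).injective] at h1
    exact h0 h1
  -- pigeonhole
  classical
  have hcard : G'.roots.toFinset.card < (Finset.Icc 1 (G.natDegree + 1)).card := by
    rw [Nat.card_Icc]
    have h1 := Multiset.toFinset_card_le G'.roots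
    have h2 := Polynomial.card_roots' G'
    have h3 : G'.natDegree = G.natDegree := Polynomial.natDegree_map _
    omega
  obtain ⟨a, ha, b, hb, hab, heq⟩ := Finset.exists_ne_map_eq_of_card_lt_of_maps_to hcard
    (f := fun h => x ^ h) (by
      intro h hh
      rw [Finset.mem_coe, Finset.mem_Icc] at hh
      rw [Finset.mem_coe, Multiset.mem_toFinset]
      exact hroot h hh.1)
  rw [Finset.mem_Icc] at ha hb
  have aux : ∀ a b : ℕ, 1 ≤ a → a < b → b ≤ G.natDegree + 1 → x ^ a = x ^ b →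
      x ^ (G.natDegree.factorial) = 1 := by
    intro a b ha hab hb heq
    have h1 : x ^ (b - a) = 1 := by
      have h2 : x ^ a * x ^ (b - a) = x ^ a * 1 := by
        rw [← pow_add, mul_one, heq]
        congr 1
        omega
      exact mul_left_cancel₀ (pow_ne_zero _ hx0) h2
    have h3 : (b - a) ∣ G.natDegree.factorial := Nat.dvd_factorial (by omega) (by omega)
    obtain ⟨k, hk⟩ := h3
    rw [hk, pow_mul, h1, one_pow]
  have hfin : x ^ (G.natDegree.factorial) = 1 := by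
    rcases lt_or_gt_of_ne hab with h | h
    · exact aux a b ha.1 h hb.2 heq
    · exact aux b a hb.1 h ha.2 heq.symm
  apply Ideal.Quotient.eq_zero_iff_mem.mp
  rw [map_sub, map_pow, map_one, ← hx, hfin, sub_self]

theorem ideal_lemma (G : ℝ[X]) (hG : G ≠ 0) (h0 : G.coeff 0 ≠ 0) :
    ∃ H L μ : ℕ, 0 < L ∧ ∀ t : ℕ,
      (∀ h : ℕ, 1 ≤ h → (expand ℝ h G) ^ t ∈ Ideal.span (dil G H t)) ∧
      (X ^ L - 1 : ℝ[X]) ^ (t * μ) ∈ Ideal.span (dil G H t) := by
  -- the chain
  let c : ℕ →o Ideal ℝ[X] := ⟨fun H => Ideal.span (dil G H 1), by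
    intro a b hab
    apply Ideal.span_mono
    rintro f ⟨h, h1, h2, h3⟩
    exact ⟨h, h1, h2.trans hab, h3⟩⟩
  obtain ⟨H₀, hH₀⟩ := monotone_stabilizes_iff_noetherian.mpr
    (inferInstance : IsNoetherian ℝ[X] ℝ[X]) c
  set H := max H₀ 1 with hH
  have hmem : ∀ h : ℕ, 1 ≤ h → expand ℝ h G ∈ Ideal.span (dil G H 1) := by
    intro h hh
    have h1 : Ideal.span (dil G H 1) = Ideal.span (dil G (max H h) 1) := by
      have e1 := hH₀ H (le_max_left _ _)
      have e2 := hH₀ (max H h) ((le_max_left _ _).trans (le_max_left _ _))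
      exact e1.symm.trans e2
    rw [h1]
    apply Ideal.subset_span
    exact ⟨h, hh, le_max_right _ _, (pow_one _).symm⟩
  have hrad := root_lemma G hG h0 _ hmem
  obtain ⟨μ, hμ⟩ := hrad
  -- the generator
  set γ := Submodule.IsPrincipal.generator (Ideal.span (dil G H 1)) with hγ
  have hspan : Ideal.span {γ} = Ideal.span (dil G H 1) := Ideal.span_singleton_generator _
  have hdvd : ∀ f ∈ Ideal.span (dil G H 1), γ ∣ f := by
    intro f hf
    rw [← hspan, Ideal.mem_span_singleton] at hf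
    exact hf
  have hγ0 : γ ≠ 0 := by
    intro h
    have h1 := hdvd _ (hmem 1 le_rfl)
    rw [h, zero_dvd_iff, expand_one] at h1
    exact hG h1
  have hg : ∀ h : ℕ, ∃ g, 1 ≤ h → expand ℝ h G = γ * g := by
    intro h
    by_cases hh : 1 ≤ h
    · obtain ⟨g, hg⟩ := hdvd _ (hmem h hh)
      exact ⟨g, fun _ => hg⟩
    · exact ⟨0, fun h' => absurd h' hh⟩
  choose g hg using hg
  have htop : Ideal.span (g '' {h | 1 ≤ h ∧ h ≤ H}) = ⊤ := by
    have h1 : γ ∈ Ideal.span (dil G H 1) := by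
      rw [← hspan]; exact Ideal.mem_span_singleton_self γ
    have h2 : ∀ f ∈ Ideal.span (dil G H 1), ∃ k ∈ Ideal.span (g '' {h | 1 ≤ h ∧ h ≤ H}),
        f = γ * k := by
      intro f hf
      induction hf using Submodule.span_induction with
      | mem f hf =>
        obtain ⟨h, h1, h2, h3⟩ := hf
        refine ⟨g h, Ideal.subset_span ⟨h, ⟨h1, h2⟩, rfl⟩, ?_⟩
        rw [h3, pow_one, hg h h1]
      | zero => exact ⟨0, Ideal.zero_mem _, by simp⟩
      | add f f' _ _ hf hf' =>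
        obtain ⟨k, hk, rfl⟩ := hf
        obtain ⟨k', hk', rfl⟩ := hf'
        exact ⟨k + k', Ideal.add_mem _ hk hk', by ring⟩
      | smul a f _ hf =>
        obtain ⟨k, hk, rfl⟩ := hf
        exact ⟨a * k, Ideal.mul_mem_left _ _ hk, by rw [smul_eq_mul]; ring⟩
    obtain ⟨k, hk, hk'⟩ := h2 γ h1
    have h3 : k = 1 := by
      have : γ * 1 = γ * k := by rw [mul_one]; exact hk'
      exact (mul_left_cancel₀ hγ0 this).symm
    rw [Ideal.eq_top_iff_one, ← h3]
    exact hk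
  refine ⟨H, G.natDegree.factorial, μ, Nat.factorial_pos _, fun t => ?_⟩
  have hpow := Ideal.span_pow_eq_top _ htop t
  have hγt : γ ^ t ∈ Ideal.span (dil G H t) := by
    have h2 : ∀ f ∈ Ideal.span ((fun x => x ^ t) '' (g '' {h | 1 ≤ h ∧ h ≤ H})),
        γ ^ t * f ∈ Ideal.span (dil G H t) := by
      intro f hf
      induction hf using Submodule.span_induction with
      | mem f hf =>
        obtain ⟨_, ⟨h, ⟨h1, h2⟩, rfl⟩, rfl⟩ := hf
        apply Ideal.subset_span
        refine ⟨h, h1, h2, ?_⟩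
        rw [hg h h1, mul_pow]
      | zero => rw [mul_zero]; exact Ideal.zero_mem _
      | add f f' _ _ hf hf' => rw [mul_add]; exact Ideal.add_mem _ hf hf'
      | smul a f _ hf =>
        rw [smul_eq_mul, mul_left_comm]; exact Ideal.mul_mem_left _ _ hf
    have h3 := h2 1 (by rw [hpow]; trivial)
    rwa [mul_one] at h3
  constructor
  · intro h hh
    rw [hg h hh, mul_pow, mul_comm]
    exact Ideal.mul_mem_left _ _ hγt
  · obtain ⟨k, hk⟩ := hdvd _ hμ
    rw [mul_comm t μ, pow_mul, hk, mul_pow, mul_comm]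
    exact Ideal.mul_mem_left _ _ hγt

end K3h61.LW
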