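import Pool.Agent.K3h61.LW.Ext

set_option autoImplicit false
open Polynomial Finset

namespace K3h61.LW

lemma sum_range_mul (f : ℕ → ℤ) (L n : ℕ) :
    ∑ j ∈ range (L * n), f j = ∑ s ∈ range n, ∑ a ∈ range L, f (a + L * s) := by
  induction n with
  | zero => simp
  | succ n ih =>
    rw [Nat.mul_succ, Finset.sum_range_add, ih, Finset.sum_range_succ]
    congr 1
    refine Finset.sum_congr rfl fun a _ => ?_
    rw [add_comm]

lemma sum_choose (n k : ℕ) : ∑ s ∈ range n, s.choose k = n.choose (k + 1) := by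
  induction n with
  | zero => simp
  | succ n ih => rw [Finset.sum_range_succ, ih, Nat.choose_succ_succ, add_comm]

lemma aeval_E_fwdDiff (L r : ℕ) (f : ℤ → ℤ) :
    (aeval E ((X ^ L - 1 : ℝ[X]) ^ r)) (fun j => (f j : ℝ)) =
      fun j => (((fwdDiff (L : ℤ))^[r] f j : ℤ) : ℝ) := by
  induction r generalizing f with
  | zero => simp
  | succ r ih =>
    have h1 : (aeval E ((X ^ L - 1 : ℝ[X]))) (fun j => (f j : ℝ)) =
        fun j => ((fwdDiff (L : ℤ) f j : ℤ) : ℝ) := by
      funext j
      rw [map_sub, map_pow, aeval_X, map_one, LinearMap.sub_apply, Pi.sub_apply, E_pow_apply,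
        Module.End.one_apply, fwdDiff]
      push_cast
      rfl
    rw [pow_succ, map_mul, Module.End.mul_apply, h1, ih, Function.iterate_succ_apply]

theorem parity (R : ℤ → ℤ) (L r A : ℕ) (hr : r < 2 ^ A)
    (hR : (X ^ L - 1 : ℝ[X]) ^ r ∈ ann (fun j => (R j : ℝ))) :
    Even (∑ j ∈ range (L * 2 ^ A), R j) := by
  rw [mem_ann] at hR
  have h0 : (fwdDiff (L : ℤ))^[r] R = fun _ => 0 := by
    funext j
    have h1 := congrFun (aeval_E_fwdDiff L r R) j
    rw [hR] at h1
    have h2 : ((0 : ℤ → ℝ) j) = 0 := rfl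
    rw [h2] at h1
    exact_mod_cast h1.symm
  have h1 : ∀ k : ℕ, r ≤ k → (fwdDiff (L : ℤ))^[k] R = fun _ => 0 := by
    intro k hk
    obtain ⟨d, rfl⟩ := Nat.exists_eq_add_of_le hk
    clear hk
    induction d with
    | zero => exact h0
    | succ d ih =>
      rw [← add_assoc, Function.iterate_succ_apply', ih]
      funext j
      simp [fwdDiff]
  rw [sum_range_mul (fun j => R j), Finset.sum_comm]
  refine Finset.even_sum _ fun a _ => ?_
  have h2 : ∀ s ∈ range (2 ^ A), R (((a + L * s : ℕ)) : ℤ) =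
      ∑ k ∈ range r, (s.choose k : ℤ) * (fwdDiff (L : ℤ))^[k] R a := by
    intro s _
    have h3 := shift_eq_sum_fwdDiff_iter (L : ℤ) R s (a : ℤ)
    have h4 : (a : ℤ) + s • (L : ℤ) = ((a + L * s : ℕ) : ℤ) := by
      rw [nsmul_eq_mul]; push_cast; ring
    rw [h4] at h3
    rw [h3]
    rcases Nat.lt_or_ge s r with h | h
    · rw [← Finset.sum_subset (Finset.range_mono (show s + 1 ≤ r from h))]
      · refine Finset.sum_congr rfl fun k _ => ?_
        rw [nsmul_eq_mul]
      · intro k _ hk2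
        rw [Finset.mem_range, not_lt] at hk2
        rw [Nat.choose_eq_zero_of_lt (by omega), Nat.cast_zero, zero_mul]
    · symm
      rw [← Finset.sum_subset (Finset.range_mono (show r ≤ s + 1 by omega))]
      · refine Finset.sum_congr rfl fun k _ => ?_
        rw [nsmul_eq_mul]
      · intro k _ hk2
        rw [Finset.mem_range, not_lt] at hk2
        rw [h1 k hk2, smul_zero]
  rw [Finset.sum_congr rfl h2, Finset.sum_comm]
  refine Finset.even_sum _ fun k hk => ?_
  rw [Finset.mem_range] at hk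
  rw [← Finset.sum_mul]
  apply Even.mul_right
  have h5 : ∑ s ∈ range (2 ^ A), (s.choose k : ℤ) = (((2 ^ A).choose (k + 1) : ℕ) : ℤ) := by
    rw [← sum_choose]; push_cast; rfl
  rw [h5, Int.even_coe_nat, even_iff_two_dvd]
  exact Nat.Prime.dvd_choose_pow Nat.prime_two (Nat.succ_ne_zero k) (by omega)

end K3h61.LW
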