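import Pool.Agent.K3h61.LW.Struct
import Pool.Agent.K3h61.LW.Parity
import Pool.Agent.K3h61.LW.Fourier
import Pool.Agent.K3h61.LW.GOne

set_option autoImplicit false
open Polynomial Finset Filter

namespace K3h61.LW

/-- the norm of a product -/
lemma norm_mul_le (p q : ℤ[X]) (n : ℕ) (a b : ℤ) (ha : ∀ n, ∑ i ∈ range n, |p.coeff i| ≤ a)
    (hb : ∀ n, ∑ i ∈ range n, |q.coeff i| ≤ b) :
    ∑ i ∈ range n, |(p * q).coeff i| ≤ a * b := by
  classical
  have h1 : ∀ i ∈ range n, |(p * q).coeff i| ≤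
      ∑ x ∈ (range n ×ˢ range n) with x.1 + x.2 = i, |p.coeff x.1| * |q.coeff x.2| := by
    intro i hi
    rw [Finset.mem_range] at hi
    have h2 : Finset.HasAntidiagonal.antidiagonal i = {x ∈ range n ×ˢ range n | x.1 + x.2 = i} := by
      ext x
      rw [Finset.HasAntidiagonal.mem_antidiagonal, Finset.mem_filter, Finset.mem_product, Finset.mem_range,
        Finset.mem_range]
      omega
    rw [coeff_mul, h2]
    refine (Finset.abs_sum_le_sum_abs _ _).trans (Finset.sum_le_sum fun x _ => ?_)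
    rw [abs_mul]
  calc ∑ i ∈ range n, |(p * q).coeff i|
      ≤ ∑ i ∈ range n, ∑ x ∈ (range n ×ˢ range n) with x.1 + x.2 = i,
          |p.coeff x.1| * |q.coeff x.2| := Finset.sum_le_sum h1
    _ ≤ ∑ x ∈ range n ×ˢ range n, |p.coeff x.1| * |q.coeff x.2| := by
        have := Finset.sum_fiberwise_le_sum_of_sum_fiber_nonneg (s := range n ×ˢ range n)
          (t := range n) (g := fun x : ℕ × ℕ => x.1 + x.2)
          (f := fun x : ℕ × ℕ => |p.coeff x.1| * |q.coeff x.2|)
          (fun y _ => Finset.sum_nonneg fun x _ => by positivity)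
        exact this
    _ = (∑ i ∈ range n, |p.coeff i|) * ∑ i ∈ range n, |q.coeff i| := by
        rw [Finset.sum_product, Finset.sum_mul_sum]
    _ ≤ a * b := mul_le_mul (ha n) (hb n) (Finset.sum_nonneg fun _ _ => abs_nonneg _)
        (le_trans (Finset.sum_nonneg fun _ _ => abs_nonneg _) (ha n))

lemma norm_pow_le (p : ℤ[X]) (a : ℤ) (ha : ∀ n, ∑ i ∈ range n, |p.coeff i| ≤ a) (t : ℕ) :
    ∀ n, ∑ i ∈ range n, |(p ^ t).coeff i| ≤ a ^ t := by
  induction t with
  | zero =>
    intro n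
    rw [pow_zero, pow_zero]
    calc ∑ i ∈ range n, |(1 : ℤ[X]).coeff i| = ∑ i ∈ range n, if i = 0 then 1 else 0 := by
          refine Finset.sum_congr rfl fun i _ => ?_
          rw [coeff_one]
          split_ifs <;> simp
      _ ≤ 1 := by
          rw [Finset.sum_ite_eq']
          split_ifs <;> norm_num
  | succ t ih =>
    intro n
    rw [pow_succ, pow_succ]
    exact norm_mul_le _ _ n _ _ ih ha

/-- the binomial coefficient sequences are killed by powers of `X - 1` -/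
lemma ann_choose (k M : ℕ) (hk : k < M) :
    (X - 1 : ℝ[X]) ^ M ∈ ann (fun j => ((Ring.choose j k : ℤ) : ℝ)) := by
  induction M generalizing k with
  | zero => omega
  | succ M ih =>
    rw [mem_ann, pow_succ, map_mul, Module.End.mul_apply]
    have h1 : (aeval E (X - 1 : ℝ[X])) (fun j => ((Ring.choose j k : ℤ) : ℝ)) =
        fun j => ((Ring.choose (j + 1) k : ℤ) : ℝ) - ((Ring.choose j k : ℤ) : ℝ) := by
      funext j
      rw [map_sub, aeval_X, map_one, LinearMap.sub_apply, Pi.sub_apply, Module.End.one_apply]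
      rfl
    rw [h1]
    rcases Nat.eq_zero_or_pos k with rfl | hk0
    · simp only [Ring.choose_zero_right, sub_self]
      exact map_zero _
    · obtain ⟨k', rfl⟩ := Nat.exists_eq_add_of_le' hk0
      have h2 : (fun j : ℤ => ((Ring.choose (j + 1) (k' + 1) : ℤ) : ℝ) -
          ((Ring.choose j (k' + 1) : ℤ) : ℝ)) = fun j : ℤ => ((Ring.choose j k' : ℤ) : ℝ) := by
        funext j
        rw [Ring.choose_succ_succ]
        push_cast
        ring
      rw [h2]
      exact ih k' (by omega)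

lemma ann_comb {ι : Type*} [Fintype ι] (p : ℝ[X]) (c : ι → ℝ) (S : ι → ℤ → ℝ)
    (h : ∀ k, p ∈ ann (S k)) (q : ℝ) : p ∈ ann (fun j => (∑ k, c k * S k j) / q) := by
  have h1 : (fun j => (∑ k, c k * S k j) / q) = q⁻¹ • ∑ k, c k • S k := by
    funext j
    simp only [Pi.smul_apply, Finset.sum_apply, smul_eq_mul]
    rw [div_eq_inv_mul]
  rw [mem_ann, h1, map_smul, map_sum, Finset.sum_eq_zero, smul_zero]
  intro k _
  rw [map_smul, mem_ann.mp (h k), smul_zero]

lemma expand_pow_map (G₁ : ℤ[X]) (t h : ℕ) :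
    expand ℝ h ((G₁ ^ t).map (Int.castRingHom ℝ)) =
      (expand ℝ h (G₁.map (Int.castRingHom ℝ))) ^ t := by
  rw [Polynomial.map_pow, map_pow]

lemma dvd_expand (G₁ : ℤ[X]) (m t h : ℕ) (hd : (X - 1) ^ m ∣ G₁) :
    (X - 1 : ℝ[X]) ^ (m * t) ∣ expand ℝ h ((G₁ ^ t).map (Int.castRingHom ℝ)) := by
  rw [expand_pow_map, pow_mul]
  apply pow_dvd_pow_of_dvd
  obtain ⟨q, rfl⟩ := hd
  rw [Polynomial.map_mul, map_mul, Polynomial.map_pow, map_pow, Polynomial.map_sub, map_X,
    Polynomial.map_one, map_sub, expand_X, map_one]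
  apply Dvd.dvd.mul_right
  apply pow_dvd_pow_of_dvd
  have := sub_dvd_pow_sub_pow (X : ℝ[X]) 1 h
  rwa [one_pow] at this

/-- the numerical bound -/
lemma numer2 (a D L H t : ℕ) (h1 : 2 ^ a ≤ t) (h2 : D ≤ t) (h3 : L ≤ t) (h3' : 1 ≤ L) (h4 : H ≤ t)
    (h5 : 16 * a ≤ t) (h6 : 286 * t ^ 16 ≤ 2 ^ t) (ha : 1 ≤ a) :
    2 * ((5 * (2 ^ (3 * a * t)) ^ 2 * (2 ^ a * t) ^ 2 * (L + 16 * a * t) + 1) *
      (t * D * (5 * (2 ^ (3 * a * t)) ^ 2 * (2 ^ a * t) ^ 2 * (L + 16 * a * t) * (t * D) + 2 + H)))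
      ≤ L * 2 ^ (16 * a * t) := by
  have ht : 1 ≤ t := le_trans Nat.one_le_two_pow h1
  set w := (2 ^ (3 * a * t)) ^ 2 with hw
  have hw1 : 1 ≤ w := by rw [hw]; exact Nat.one_le_pow _ _ (by positivity)
  set β := 5 * w * (2 ^ a * t) ^ 2 * (L + 16 * a * t) with hβ
  have hβle : β ≤ 10 * t ^ 6 * w := by
    calc β ≤ 5 * w * (t * t) ^ 2 * (t * t + t * t) := by
          rw [hβ]
          apply Nat.mul_le_mul
          · apply Nat.mul_le_mul_left
            exact Nat.pow_le_pow_left (Nat.mul_le_mul_right _ h1) 2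
          · apply Nat.add_le_add
            · exact h3.trans (Nat.le_mul_of_pos_left t ht)
            · exact Nat.mul_le_mul_right _ h5
      _ = 10 * t ^ 6 * w := by ring
  have ht6 : 1 ≤ t ^ 6 * w := Nat.mul_pos (by positivity) hw1
  have hb1 : β + 1 ≤ 11 * t ^ 6 * w := by linarith
  have htD : t * D ≤ t ^ 2 := by rw [sq]; exact Nat.mul_le_mul_left _ h2
  have ht8 : 1 ≤ t ^ 7 * w := Nat.mul_pos (by positivity) hw1
  have hb2 : β * (t * D) + 2 + H ≤ 13 * t ^ 8 * w := by
    calc β * (t * D) + 2 + H ≤ (10 * t ^ 6 * w) * t ^ 2 + 2 * t + t := by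
          apply Nat.add_le_add _ h4
          apply Nat.add_le_add (Nat.mul_le_mul hβle htD)
          omega
      _ = 10 * t ^ 8 * w + 3 * t * 1 := by ring
      _ ≤ 10 * t ^ 8 * w + 3 * t * (t ^ 7 * w) := by
          apply Nat.add_le_add_left
          exact Nat.mul_le_mul_left _ ht8
      _ = 13 * t ^ 8 * w := by ring
  calc 2 * ((β + 1) * (t * D * (β * (t * D) + 2 + H)))
      ≤ 2 * ((11 * t ^ 6 * w) * (t ^ 2 * (13 * t ^ 8 * w))) := by
        apply Nat.mul_le_mul_left
        apply Nat.mul_le_mul hb1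
        exact Nat.mul_le_mul htD hb2
    _ = (286 * t ^ 16) * (w * w) := by ring
    _ ≤ 2 ^ t * (w * w) := Nat.mul_le_mul_right _ h6
    _ ≤ 2 ^ (4 * a * t) * (w * w) := by
        apply Nat.mul_le_mul_right
        apply Nat.pow_le_pow_right (by norm_num)
        nlinarith
    _ = 1 * 2 ^ (16 * a * t) := by
        rw [hw, ← pow_mul, ← pow_add, ← pow_add, one_mul]
        congr 1
        ring
    _ ≤ L * 2 ^ (16 * a * t) := Nat.mul_le_mul_right _ h3'

theorem exists_eps (a : ℕ) (ha : 4 ≤ a) : ∃ L : ℕ, 0 < L ∧ ∀ᶠ t : ℕ in atTop,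
    ∃ ε : ℕ → ℤ, (∀ j, ε j = 1 ∨ ε j = -1) ∧
      ∀ k < 2 ^ a * t, ∑ j ∈ range (L * 2 ^ (16 * a * t)), ε j * (j.choose k : ℤ) = 0 := by
  classical
  -- step A
  have hD2 : 2 ≤ 2 ^ (3 * a) := by
    calc 2 = 2 ^ 1 := rfl
      _ ≤ 2 ^ (3 * a) := Nat.pow_le_pow_right (by norm_num) (by omega)
  obtain ⟨G₁, hm₁, hu₁, hd₁, hn₁, hn₁', hc₁⟩ := exists_G (2 ^ a) (2 ^ (3 * a)) Nat.one_le_two_pow
    hD2 (numer a ha)
  set Gr : ℝ[X] := G₁.map (Int.castRingHom ℝ) with hGr
  have hGr0 : Gr ≠ 0 := by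
    rw [hGr, Ne, Polynomial.map_eq_zero_iff (RingHom.injective_int (Int.castRingHom ℝ))]
    exact hm₁.ne_zero
  have hGrc : Gr.coeff 0 ≠ 0 := by
    rw [hGr, coeff_map]
    have := hu₁.ne_zero
    simpa using this
  obtain ⟨H, L, μ, hL, hideal⟩ := ideal_lemma Gr hGr0 hGrc
  refine ⟨L, hL, ?_⟩
  have hev : ∀ᶠ t : ℕ in atTop, 286 * t ^ 16 ≤ 2 ^ t := by
    have h1 := tendsto_pow_const_div_const_pow_of_one_lt 16 (r := (2 : ℝ)) (by norm_num)
    have h2 := h1.eventually (gt_mem_nhds (show (0 : ℝ) < 1 / 286 by norm_num))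
    filter_upwards [h2] with t ht
    rw [div_lt_iff₀ (by positivity)] at ht
    have h3 : (286 * t ^ 16 : ℝ) ≤ 2 ^ t := by linarith
    exact_mod_cast h3
  filter_upwards [hev, eventually_ge_atTop (2 ^ a), eventually_ge_atTop (2 ^ (3 * a)),
    eventually_ge_atTop L, eventually_ge_atTop H, eventually_ge_atTop (16 * a),
    eventually_ge_atTop (μ + 1)] with t ht6 ht1 ht2 ht3 ht4 ht5 ht7
  have ht : 1 ≤ t := by omega
  have ht8 : t ≤ 2 ^ t := (Nat.lt_two_pow_self).le
  set N := L * 2 ^ (16 * a * t) with hN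
  set M := 2 ^ a * t with hM
  have hM1 : 1 ≤ M := Nat.mul_pos (by positivity) ht
  have hN1 : 1 ≤ N := Nat.mul_pos hL (by positivity)
  -- step B
  set G := G₁ ^ t with hG
  have hGm : G.Monic := hm₁.pow t
  have hGu : IsUnit (G.coeff 0) := by
    rw [hG, coeff_zero_eq_eval_zero, eval_pow, ← coeff_zero_eq_eval_zero]
    exact hu₁.pow t
  have hGd : G.natDegree = t * G₁.natDegree := hm₁.natDegree_pow t
  have hGd1 : 1 ≤ G.natDegree := by rw [hGd]; exact Nat.mul_pos ht hn₁
  set W : ℕ := 2 ^ (3 * a * t) with hW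
  have hnorm : ∑ i ∈ range (G.natDegree + 1), |(G.coeff i : ℝ)| ≤ (W : ℝ) := by
    have h1 : ∀ n, ∑ i ∈ range n, |G₁.coeff i| ≤ (2 ^ (3 * a) : ℤ) := by
      intro n
      calc ∑ i ∈ range n, |G₁.coeff i| ≤ ∑ i ∈ range n, (if i < 2 ^ (3 * a) then 1 else 0) := by
            refine Finset.sum_le_sum fun i _ => ?_
            split_ifs with h
            · exact hc₁ i
            · rw [coeff_eq_zero_of_natDegree_lt (by omega)]; simp
        _ ≤ ∑ i ∈ range (2 ^ (3 * a)), 1 := by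
            rw [← Finset.sum_filter]
            refine Finset.sum_le_sum_of_subset_of_nonneg ?_ (fun _ _ _ => zero_le_one)
            intro i hi
            rw [Finset.mem_filter] at hi
            exact Finset.mem_range.mpr hi.2
        _ = (2 ^ (3 * a) : ℤ) := by simp
    have h2 := norm_pow_le G₁ _ h1 t (G.natDegree + 1)
    have h3 : ((2 : ℤ) ^ (3 * a)) ^ t = ((W : ℕ) : ℤ) := by
      rw [hW, ← pow_mul]; push_cast; rfl
    rw [h3] at h2
    have h4 : ((∑ i ∈ range (G.natDegree + 1), |G.coeff i| : ℤ) : ℝ) ≤ ((W : ℕ) : ℝ) := by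
      exact_mod_cast h2
    push_cast at h4
    exact h4
  have hWpos : (0 : ℝ) < W := by rw [hW]; positivity
  set η : ℝ := 1 / (3 * W) with hη
  have hηpos : 0 < η := by rw [hη]; positivity
  have hWη : (W : ℝ) * η < 1 / 2 := by
    have : (W : ℝ) * η = 1 / 3 := by rw [hη]; field_simp
    rw [this]; norm_num
  -- step C
  have hdil : ∀ S : ℤ → ℝ, (∀ h : ℕ, 1 ≤ h → h ≤ H → ∀ j, rc G h S j = 0) →
      Ideal.span (dil Gr H t) ≤ ann S := by
    intro S hS
    rw [Ideal.span_le]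
    rintro f ⟨h, hh1, hh2, rfl⟩
    have := (rc_mem_ann G h S).mp (hS h hh1 hh2)
    rw [hG, expand_pow_map] at this
    exact this
  have hspan : ∀ S : ℤ → ℝ, (∀ h : ℕ, 1 ≤ h → h ≤ H → ∀ j, rc G h S j = 0) →
      ∀ h : ℕ, 1 ≤ h → ∀ j, rc G h S j = 0 := by
    intro S hS h hh
    rw [rc_mem_ann, hG, expand_pow_map]
    exact hdil S hS ((hideal t).1 h hh)
  have hpar : ∀ R : ℤ → ℤ, (∀ h : ℕ, 1 ≤ h → ∀ j, rc G h (fun j => (R j : ℝ)) j = 0) →
      Even (∑ j ∈ range N, R j) := by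
    intro R hR
    refine parity R L (t * μ) (16 * a * t) ?_ (hdil _ (fun h hh _ => hR h hh) (hideal t).2)
    calc t * μ < t * (μ + 1) := by nlinarith
      _ ≤ t * t := Nat.mul_le_mul_left _ ht7
      _ ≤ 2 ^ t * 2 ^ t := Nat.mul_le_mul ht8 ht8
      _ = 2 ^ (t + t) := by rw [← pow_add]
      _ ≤ 2 ^ (16 * a * t) := by
          apply Nat.pow_le_pow_right (by norm_num)
          nlinarith
  -- step D
  have hsub : ∀ S : ℤ → ℝ, (X - 1 : ℝ[X]) ^ M ∈ ann S →
      ∀ h : ℕ, 1 ≤ h → ∀ j, rc G h S j = 0 := by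
    intro S hS h _
    rw [rc_mem_ann]
    exact (ann S).mem_of_dvd (dvd_expand G₁ (2 ^ a) t h hd₁) hS
  set φ : Fin M → ℕ → ℤ := fun k j => (j.choose k : ℤ) with hφ
  set Q := N ^ M with hQ
  have hQ1 : 0 < Q := pow_pos hN1 M
  have hφev : ∀ k, Even (∑ j ∈ range N, φ k j) := by
    intro k
    have h1 := hpar (fun j => Ring.choose j (k : ℕ)) (hsub _ (ann_choose k M k.2))
    have h2 : ∀ j ∈ range N, φ k j = Ring.choose ((j : ℕ) : ℤ) (k : ℕ) := by
      intro j _
      rw [Ring.choose_natCast]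
    rw [Finset.sum_congr rfl h2]
    exact h1
  have hφsm : ∀ k, ∑ j ∈ range N, |φ k j| < 2 * Q := by
    intro k
    have h1 : ∑ j ∈ range N, |φ k j| = ((N.choose (k + 1) : ℕ) : ℤ) := by
      rw [← sum_choose']
      push_cast
      refine Finset.sum_congr rfl fun j _ => ?_
      exact abs_of_nonneg (by positivity)
    rw [h1]
    have h2 : N.choose (k + 1) < 2 * Q := by
      calc N.choose (k + 1) ≤ N ^ ((k : ℕ) + 1) := Nat.choose_le_pow _ _
        _ ≤ N ^ M := Nat.pow_le_pow_right hN1 k.2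
        _ < 2 * Q := by rw [← hQ]; omega
    exact_mod_cast h2
  -- step E
  set β := 5 * W ^ 2 * M ^ 2 * (L + 16 * a * t) with hβ
  have hbig : 2 * ((β + 1) * (t * 2 ^ (3 * a) * (β * (t * 2 ^ (3 * a)) + 2 + H))) ≤ N :=
    numer2 a (2 ^ (3 * a)) L H t ht1 ht2 ht3 hL ht4 ht5 ht6 (by omega)
  set δ : ℝ := Real.exp (-(2 * η ^ 2)) ^ (β + 1) with hδ
  have hδpos : 0 < δ := by rw [hδ]; positivity
  have hterm : ∀ θ : Fin M → Fin Q, -δ ≤ ∏ j ∈ range N,
      Real.cos (Real.pi * ((∑ k, ((θ k : ℕ) : ℝ) * φ k j) / Q)) := by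
    intro θ
    set P : ℤ → ℝ := fun j => (∑ k, ((θ k : ℕ) : ℝ) * ((Ring.choose j (k : ℕ) : ℤ) : ℝ)) / Q with hP
    have hPj : ∀ j : ℕ, (∑ k, ((θ k : ℕ) : ℝ) * φ k j) / Q = P j := by
      intro j
      simp only [hP, hφ]
      congr 1
      refine Finset.sum_congr rfl fun k _ => ?_
      rw [Ring.choose_natCast]
    simp only [hPj]
    have hPann : (X - 1 : ℝ[X]) ^ M ∈ ann P :=
      ann_comb _ (fun k : Fin M => ((θ k : ℕ) : ℝ))
        (fun (k : Fin M) j => ((Ring.choose j (k : ℕ) : ℤ) : ℝ))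
        (fun k => ann_choose k M k.2) (Q : ℝ)
    set s : Finset ℕ := {j ∈ range N | η < |P j - round (P j)|} with hs
    have hsN : s ⊆ range N := Finset.filter_subset _ _
    rcases Nat.lt_or_ge β s.card with hcard | hcard
    · -- minor
      have h1 := minor N (fun j => P j) η hηpos.le s hsN (by
        intro j hj
        exact (Finset.mem_filter.mp hj).2.le)
      have h2 : Real.exp (-(2 * η ^ 2)) ^ s.card ≤ δ := by
        rw [hδ]
        apply pow_le_pow_of_le_one (Real.exp_pos _).le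
        · rw [Real.exp_le_one_iff]
          have := sq_nonneg η
          linarith
        · exact hcard
      have h3 := (abs_le.mp (h1.trans h2)).1
      exact h3
    · -- major
      set B : Finset ℤ := s.map Nat.castEmbedding with hB
      have hBc : B.card = s.card := Finset.card_map _
      obtain ⟨R', hR'1, hR'2⟩ := structure_lemma G hGm hGu hGd1 W η hnorm hηpos.le hWη H hspan N P
        (hsub P hPann) (fun j => round (P j)) B (by
          intro j hj0 hjN hjB
          by_contra hcon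
          apply hjB
          rw [hB, Finset.mem_map]
          refine ⟨j.toNat, ?_, ?_⟩
          · rw [hs, Finset.mem_filter, Finset.mem_range]
            refine ⟨by omega, ?_⟩
            rw [Int.toNat_of_nonneg hj0]
            exact not_le.mp hcon
          · show ((j.toNat : ℕ) : ℤ) = j
            exact Int.toNat_of_nonneg hj0) (by
          rw [hBc, hGd]
          refine le_trans ?_ hbig
          have e1 : t * G₁.natDegree ≤ t * 2 ^ (3 * a) := Nat.mul_le_mul_left _ hn₁'.le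
          apply Nat.mul_le_mul_left
          apply Nat.mul_le_mul (by omega)
          apply Nat.mul_le_mul e1
          have e2 : s.card * (t * G₁.natDegree) ≤ β * (t * 2 ^ (3 * a)) :=
            Nat.mul_le_mul hcard e1
          omega)
      have h1 := major N (fun j => P j) (fun j => R' j) (hpar R' hR'1) (by
        intro j hj
        rw [Finset.mem_range] at hj
        exact hR'2 j (by positivity) (by exact_mod_cast hj))
      linarith
  -- step F
  have hpos : 0 < ∑ θ : Fin M → Fin Q, ∏ j ∈ range N,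
      Real.cos (Real.pi * ((∑ k, ((θ k : ℕ) : ℝ) * φ k j) / Q)) := by
    set θ₀ : Fin M → Fin Q := fun _ => ⟨0, hQ1⟩ with hθ₀
    have h0 : ∏ j ∈ range N,
        Real.cos (Real.pi * ((∑ k, ((θ₀ k : ℕ) : ℝ) * φ k j) / Q)) = 1 := by
      apply Finset.prod_eq_one
      intro j _
      simp [hθ₀]
    rw [← Finset.add_sum_erase _ _ (Finset.mem_univ θ₀), h0]
    have h1 : -((Q : ℝ) ^ M * δ) ≤ ∑ θ ∈ Finset.univ.erase θ₀, ∏ j ∈ range N,
        Real.cos (Real.pi * ((∑ k, ((θ k : ℕ) : ℝ) * φ k j) / Q)) := by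
      have h2 : ∑ θ ∈ Finset.univ.erase θ₀, (-δ) ≤ ∑ θ ∈ Finset.univ.erase θ₀, ∏ j ∈ range N,
          Real.cos (Real.pi * ((∑ k, ((θ k : ℕ) : ℝ) * φ k j) / Q)) :=
        Finset.sum_le_sum fun θ _ => hterm θ
      refine le_trans ?_ h2
      rw [Finset.sum_const, nsmul_eq_mul, mul_neg, neg_le_neg_iff]
      apply mul_le_mul_of_nonneg_right _ hδpos.le
      have h3 : (Finset.univ.erase θ₀).card ≤ (Finset.univ : Finset (Fin M → Fin Q)).card :=
        Finset.card_le_card (Finset.erase_subset _ _)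
      rw [Finset.card_univ, Fintype.card_fun, Fintype.card_fin, Fintype.card_fin] at h3
      exact_mod_cast h3
    have h2 : (Q : ℝ) ^ M * δ < 1 := by
      have hNr : (1 : ℝ) ≤ N := by exact_mod_cast hN1
      have e1 : (Q : ℝ) ^ M = Real.exp ((M : ℝ) ^ 2 * Real.log N) := by
        rw [hQ]
        push_cast
        rw [← pow_mul, ← Real.rpow_natCast, Real.rpow_def_of_pos (by linarith)]
        congr 1
        push_cast
        ring
      have e2 : δ = Real.exp (-(2 * η ^ 2) * ((β + 1 : ℕ) : ℝ)) := by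
        rw [hδ, ← Real.exp_nat_mul, mul_comm]
      rw [e1, e2, ← Real.exp_add, Real.exp_lt_one_iff]
      have e3 : Real.log N ≤ L + 16 * a * t := by
        rw [hN]
        push_cast
        rw [Real.log_mul (by exact_mod_cast hL.ne') (by positivity), Real.log_pow]
        have e4 : Real.log L ≤ L := (Real.log_le_sub_one_of_pos (by exact_mod_cast hL)).trans
          (by linarith)
        have e5 : Real.log 2 ≤ 1 := by
          have := Real.log_two_lt_d9
          linarith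
        have e6 : ((16 * a * t : ℕ) : ℝ) * Real.log 2 ≤ ((16 * a * t : ℕ) : ℝ) * 1 :=
          mul_le_mul_of_nonneg_left e5 (by positivity)
        push_cast at e6 ⊢
        linarith
      have e7 : η ^ 2 = 1 / (9 * (W : ℝ) ^ 2) := by
        rw [hη]
        field_simp
        norm_num
      have e8 : 2 * η ^ 2 * (β : ℝ) = 10 / 9 * (M : ℝ) ^ 2 * (L + 16 * a * t) := by
        rw [e7, hβ]
        push_cast
        field_simp
        norm_num
      have e9 : (M : ℝ) ^ 2 * Real.log N ≤ (M : ℝ) ^ 2 * (L + 16 * a * t) :=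
        mul_le_mul_of_nonneg_left e3 (by positivity)
      have e10 : 0 < η ^ 2 := by positivity
      have e11 : 0 ≤ (M : ℝ) ^ 2 * (L + 16 * a * t) := by positivity
      push_cast
      nlinarith
    linarith
  obtain ⟨ε, hε1, hε2⟩ := fourier M N Q hQ1 φ hφev hφsm hpos
  exact ⟨ε, hε1, fun k hk => hε2 ⟨k, hk⟩⟩

end K3h61.LW
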