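import Pool.Agent.K3h61.LW.Ext

set_option autoImplicit false
open Polynomial Finset

namespace K3h61.LW

/-- choosing the step -/
lemma choose_step (B : Finset ℤ) (D : ℕ) (T : ℕ) (hT : D * (B.card * D + 1) ≤ T) (σ : ℤ)
    (hσ : σ ≠ 0) (j : ℤ) :
    ∃ h : ℕ, 1 ≤ h ∧ h * D ≤ T ∧ ∀ s : ℕ, 1 ≤ s → s ≤ D → j + σ * (h * s) ∉ B := by
  classical
  by_contra hcon
  push Not at hcon
  have h1 : ∀ h : ℕ, ∃ s : ℕ, h ∈ Finset.Icc 1 (B.card * D + 1) →
      (1 ≤ s ∧ s ≤ D ∧ j + σ * (h * s) ∈ B) := by
    intro h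
    by_cases hh : h ∈ Finset.Icc 1 (B.card * D + 1)
    · rw [Finset.mem_Icc] at hh
      obtain ⟨s, hs⟩ := hcon h hh.1 (by
        calc h * D ≤ (B.card * D + 1) * D := Nat.mul_le_mul_right _ hh.2
          _ = D * (B.card * D + 1) := mul_comm _ _
          _ ≤ T := hT)
      exact ⟨s, fun _ => hs⟩
    · exact ⟨0, fun h' => absurd h' hh⟩
  choose s hs using h1
  obtain ⟨a, ha, b, hb, hab, heq⟩ := Finset.exists_ne_map_eq_of_card_lt_of_maps_to
    (s := Finset.Icc 1 (B.card * D + 1)) (t := B ×ˢ Finset.Icc 1 D)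
    (f := fun h => (j + σ * (h * s h), s h)) (by
      rw [Finset.card_product, Nat.card_Icc, Nat.card_Icc]
      simp) (by
      intro h hh
      have := hs h hh
      rw [Finset.mem_coe, Finset.mem_product, Finset.mem_Icc]
      exact ⟨this.2.2, this.1, this.2.1⟩)
  rw [Prod.mk.injEq] at heq
  obtain ⟨e1, e2⟩ := heq
  rw [← e2] at e1
  have h3 : σ * ((a : ℤ) * s a) = σ * ((b : ℤ) * s a) := add_left_cancel e1
  have h4 := mul_left_cancel₀ hσ h3
  have h5 : ((s a : ℕ) : ℤ) ≠ 0 := by
    have := (hs a ha).1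
    omega
  have h6 := mul_right_cancel₀ h5 h4
  exact hab (by exact_mod_cast h6)

/-- a run without bad points -/
lemma exists_run (B : Finset ℤ) (l N : ℕ) (hN : (B.card + 1) * l ≤ N) :
    ∃ u : ℤ, 0 ≤ u ∧ u + l ≤ N ∧ ∀ j, u ≤ j → j < u + l → j ∉ B := by
  classical
  by_contra hcon
  push Not at hcon
  have h1 : ∀ k : ℕ, ∃ b : ℤ, k ∈ Finset.range (B.card + 1) →
      ((k * l : ℤ) ≤ b ∧ b < k * l + l ∧ b ∈ B) := by
    intro k
    by_cases hk : k ∈ Finset.range (B.card + 1)
    · rw [Finset.mem_range] at hk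
      obtain ⟨b, hb⟩ := hcon (k * l) (by positivity) (by
        have : (k + 1) * l ≤ N := (Nat.mul_le_mul_right _ hk).trans hN
        have h2 : (((k + 1) * l : ℕ) : ℤ) ≤ N := by exact_mod_cast this
        push_cast at h2
        linarith)
      exact ⟨b, fun _ => hb⟩
    · exact ⟨0, fun h' => absurd h' hk⟩
  choose b hb using h1
  obtain ⟨x, hx, y, hy, hxy, heq⟩ := Finset.exists_ne_map_eq_of_card_lt_of_maps_to
    (s := Finset.range (B.card + 1)) (t := B) (f := b) (by rw [Finset.card_range]; omega) (by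
      intro h hh
      exact (hb h hh).2.2)
  have aux : ∀ x y : ℕ, x ∈ Finset.range (B.card + 1) → y ∈ Finset.range (B.card + 1) →
      x < y → b x ≠ b y := by
    intro x y hx hy hxy
    have h1 := (hb x hx).2.1
    have h2 := (hb y hy).1
    have h3 : ((x : ℤ) + 1) * l ≤ y * l := by
      apply mul_le_mul_of_nonneg_right (by exact_mod_cast hxy) (by positivity)
    intro h
    rw [h] at h1
    linarith
  rcases lt_or_gt_of_ne hxy with h | h
  · exact aux x y hx hy h heq
  · exact aux y x hy hx h heq.symm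

lemma rc_right (G : ℤ[X]) (hm : G.Monic) (f : ℤ → ℝ) (h : ℕ) (j : ℤ) :
    rc G h f (j - h * G.natDegree) =
      ∑ i ∈ range G.natDegree, (G.coeff i : ℝ) * f (j - h * ((G.natDegree - i : ℕ) : ℤ)) + f j := by
  rw [rc, Finset.sum_range_succ]
  congr 1
  · refine Finset.sum_congr rfl fun i hi => ?_
    rw [Finset.mem_range] at hi
    congr 2
    push_cast [Nat.cast_sub hi.le]
    ring
  · have h2 : G.coeff G.natDegree = 1 := hm
    rw [h2, Int.cast_one, one_mul]
    congr 1
    ring

lemma rc_left (G : ℤ[X]) (f : ℤ → ℝ) (h : ℕ) (j : ℤ) :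
    rc G h f j =
      ∑ i ∈ range G.natDegree, (G.coeff (i + 1) : ℝ) * f (j + h * ((i + 1 : ℕ) : ℤ))
        + (G.coeff 0 : ℝ) * f j := by
  rw [rc, Finset.sum_range_succ']
  congr 2
  push_cast
  ring_nf

theorem structure_lemma (G : ℤ[X]) (hm : G.Monic) (h0 : IsUnit (G.coeff 0))
    (hD : 1 ≤ G.natDegree) (W η : ℝ)
    (hW : ∑ i ∈ range (G.natDegree + 1), |(G.coeff i : ℝ)| ≤ W) (hη : 0 ≤ η)
    (hWη : W * η < 1 / 2)
    (H : ℕ) (hspan : ∀ S : ℤ → ℝ, (∀ h : ℕ, 1 ≤ h → h ≤ H → ∀ j, rc G h S j = 0) →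
      ∀ h : ℕ, 1 ≤ h → ∀ j, rc G h S j = 0)
    (N : ℕ) (P : ℤ → ℝ) (hP : ∀ h : ℕ, 1 ≤ h → ∀ j, rc G h P j = 0) (R : ℤ → ℤ) (B : Finset ℤ)
    (hB : ∀ j : ℤ, 0 ≤ j → j < N → j ∉ B → |P j - R j| ≤ η)
    (hN : 2 * ((B.card + 1) * (G.natDegree * (B.card * G.natDegree + 2 + H))) ≤ N) :
    ∃ R' : ℤ → ℤ, (∀ h : ℕ, 1 ≤ h → ∀ j, rc G h (fun j => (R' j : ℝ)) j = 0) ∧
      ∀ j : ℤ, 0 ≤ j → j < N → |P j - R' j| < 1 / 2 := by
  classical
  set D := G.natDegree with hDdef
  set l := D * (B.card * D + 2 + H) with hl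
  have hlN : (B.card + 1) * l ≤ N := by omega
  have hl1 : D * (B.card * D + 1) ≤ l := by
    rw [hl]; apply Nat.mul_le_mul_left; omega
  have hl2 : D + H * D ≤ l := by
    rw [hl]; nlinarith [Nat.zero_le (B.card * D), Nat.zero_le (D * (B.card * D))]
  have hlN2 : 2 * l ≤ N := by
    have : l ≤ (B.card + 1) * l := Nat.le_mul_of_pos_left _ (Nat.succ_pos _)
    omega
  have hG0 : G.coeff 0 ≠ 0 := h0.ne_zero
  have hG0abs : |(G.coeff 0 : ℝ)| = 1 := by
    rcases Int.isUnit_iff.mp h0 with h | h <;> rw [h] <;> simp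
  -- claim A
  have claimA : ∀ (h : ℕ) (j : ℤ), 1 ≤ h → (∀ i : ℕ, i ≤ D → 0 ≤ j + h * i ∧ j + h * i < N ∧
      j + (h : ℤ) * i ∉ B) → rc G h (fun j => (R j : ℝ)) j = 0 := by
    intro h j hh hgood
    have h1 : rc G h (fun j => (R j : ℝ)) j =
        ((∑ i ∈ range (D + 1), G.coeff i * R (j + h * i) : ℤ) : ℝ) := by
      rw [rc]; push_cast; rfl
    have h2 : rc G h (fun j => (P j - (R j : ℝ))) j = - rc G h (fun j => (R j : ℝ)) j := by
      rw [rc_sub, hP h hh j, zero_sub]
    have h3 : |rc G h (fun j => (P j - (R j : ℝ))) j| ≤ W * η := by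
      rw [rc]
      calc |∑ i ∈ range (G.natDegree + 1), (G.coeff i : ℝ) * (P (j + h * i) - R (j + h * i))|
          ≤ ∑ i ∈ range (G.natDegree + 1), |(G.coeff i : ℝ)| * η := by
            refine (Finset.abs_sum_le_sum_abs _ _).trans (Finset.sum_le_sum fun i hi => ?_)
            rw [abs_mul]
            have := hgood i (by rw [Finset.mem_range] at hi; omega)
            exact mul_le_mul_of_nonneg_left (hB _ this.1 this.2.1 this.2.2) (abs_nonneg _)
        _ = (∑ i ∈ range (G.natDegree + 1), |(G.coeff i : ℝ)|) * η := by rw [Finset.sum_mul]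
        _ ≤ W * η := mul_le_mul_of_nonneg_right hW hη
    rw [h2, abs_neg, h1] at h3
    have h4 : |∑ i ∈ range (D + 1), G.coeff i * R (j + h * i)| < 1 := by
      have : |((∑ i ∈ range (D + 1), G.coeff i * R (j + h * i) : ℤ) : ℝ)| < 1 := by linarith
      exact_mod_cast this
    rw [h1, Int.abs_lt_one_iff.mp h4, Int.cast_zero]
  -- claim B
  obtain ⟨u, hu0, huN, hrun⟩ := exists_run B l N hlN
  obtain ⟨R', hR'w, hR'rec⟩ := exists_ext G hm h0 R u
  -- claim C
  have claimC' : ∀ k : ℕ, k < l → R' (u + k) = R (u + k) := by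
    intro k
    induction k using Nat.strong_induction_on with
    | _ k ih =>
      intro hk
      by_cases hkD : k < D
      · exact hR'w _ (by omega) (by omega)
      · have e1 := claimA 1 (u + k - ((1 : ℕ) : ℤ) * D) le_rfl (by
          intro i hi
          have e0 : u + k - ((1 : ℕ) : ℤ) * D + ((1:ℕ):ℤ) * i = u + k - D + i := by push_cast; ring
          rw [e0]
          refine ⟨by omega, by omega, hrun _ (by omega) (by omega)⟩)
        have e2 := hR'rec (u + k - ((1 : ℕ) : ℤ) * D)
        rw [hDdef, rc_right G hm] at e1 e2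
        have e3 : ∑ i ∈ range G.natDegree, (G.coeff i : ℝ) *
            (R' (u + k - ((1 : ℕ) : ℤ) * ((G.natDegree - i : ℕ) : ℤ)) : ℝ) =
            ∑ i ∈ range G.natDegree, (G.coeff i : ℝ) *
            (R (u + k - ((1 : ℕ) : ℤ) * ((G.natDegree - i : ℕ) : ℤ)) : ℝ) := by
          refine Finset.sum_congr rfl fun i hi => ?_
          rw [Finset.mem_range, ← hDdef] at hi
          rw [← hDdef]
          have e4 : u + (k : ℤ) - ((1 : ℕ) : ℤ) * ((D - i : ℕ) : ℤ) = u + ((k - (D - i) : ℕ) : ℤ) := by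
            push_cast [Nat.cast_sub (show D - i ≤ k by omega)]; ring
          rw [e4, ih _ (by omega) (by omega)]
        rw [e3] at e2
        have e5 : (R' (u + k) : ℝ) = (R (u + k) : ℝ) := by linarith
        exact_mod_cast e5
  have claimC : ∀ j, u ≤ j → j < u + l → R' j = R j := by
    intro j h1 h2
    have := claimC' (j - u).toNat (by omega)
    rwa [Int.toNat_of_nonneg (by omega), add_sub_cancel] at this
  -- claim D
  have claimD : ∀ h : ℕ, 1 ≤ h → h ≤ H → ∀ j, rc G h (fun j => (R' j : ℝ)) j = 0 := by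
    intro h hh hhH
    apply ext_zero G hm hG0 (rc G h (fun j => (R' j : ℝ)))
      (by
        intro j
        rw [rc_comm]
        have : rc G 1 (fun j => (R' j : ℝ)) = fun _ => 0 := by
          funext j; exact hR'rec j
        rw [this, rc_zero]) u
    intro j h1 h2
    have hhD : h * D ≤ H * D := Nat.mul_le_mul_right _ hhH
    have hbound : ∀ i : ℕ, i ≤ D → u ≤ j + h * i ∧ j + (h:ℤ) * i < u + l := by
      intro i hi
      have e1 : h * i ≤ h * D := Nat.mul_le_mul_left _ hi
      have e2 : ((h * i : ℕ) : ℤ) ≤ ((h * D : ℕ) : ℤ) := by exact_mod_cast e1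
      push_cast at e2
      have e3 : ((h * D : ℕ) : ℤ) ≤ ((H * D : ℕ) : ℤ) := by exact_mod_cast hhD
      push_cast at e3
      have e4 : ((D + H * D : ℕ) : ℤ) ≤ l := by exact_mod_cast hl2
      push_cast at e4
      have e5 : (0 : ℤ) ≤ (h : ℤ) * i := by positivity
      constructor
      · linarith
      · linarith
    have e1 := claimA h j hh (by
      intro i hi
      obtain ⟨e2, e3⟩ := hbound i hi
      exact ⟨by linarith, by linarith, hrun _ e2 e3⟩)
    rw [← e1, rc, rc]
    refine Finset.sum_congr rfl fun i hi => ?_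
    rw [Finset.mem_range] at hi
    obtain ⟨e2, e3⟩ := hbound i (by omega)
    rw [claimC _ e2 e3]
  have claimE := hspan _ claimD
  -- claim F, right
  have claimFr : ∀ k : ℕ, u + k < N → u + (k : ℤ) ∉ B → R (u + k) = R' (u + k) := by
    intro k
    induction k using Nat.strong_induction_on with
    | _ k ih =>
      intro hkN hkB
      by_cases hkl : k < l
      · exact (claimC' k hkl).symm
      · obtain ⟨h, hh, hhT, hstep⟩ := choose_step B D k (hl1.trans (not_lt.mp hkl)) (-1) (by norm_num)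
          (u + k)
        have hpt : ∀ s : ℕ, 1 ≤ s → s ≤ D → u ≤ u + k - (h : ℤ) * s ∧ u + (k:ℤ) - h * s < u + k ∧
            u + (k : ℤ) - h * s ∉ B := by
          intro s hs1 hs2
          have e1 : h * s ≤ k := (Nat.mul_le_mul_left _ hs2).trans hhT
          have e2 : ((h * s : ℕ) : ℤ) ≤ k := by exact_mod_cast e1
          have e3 : 1 ≤ h * s := Nat.mul_pos hh hs1
          have e4 : (1 : ℤ) ≤ ((h * s : ℕ) : ℤ) := by exact_mod_cast e3
          push_cast at e2 e4
          refine ⟨by linarith, by linarith, ?_⟩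
          have := hstep s hs1 hs2
          have e5 : u + (k : ℤ) + -1 * ((h : ℤ) * s) = u + k - h * s := by ring
          rwa [e5] at this
        have e1 := claimA h (u + k - h * D) hh (by
          intro i hi
          have e0 : u + k - (h : ℤ) * D + (h : ℤ) * i = u + k - h * ((D - i : ℕ) : ℤ) := by
            push_cast [Nat.cast_sub hi]; ring
          rw [e0]
          rcases Nat.eq_or_lt_of_le hi with rfl | hi'
          · simp only [Nat.sub_self, Nat.cast_zero, mul_zero, sub_zero]
            exact ⟨by omega, hkN, hkB⟩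
          · obtain ⟨e2, e3, e4⟩ := hpt (D - i) (by omega) (by omega)
            exact ⟨by linarith, by linarith, e4⟩)
        have e2 := claimE h hh (u + k - h * D)
        rw [hDdef, rc_right G hm] at e1 e2
        have e3 : ∑ i ∈ range G.natDegree, (G.coeff i : ℝ) *
            (R (u + k - (h : ℤ) * ((G.natDegree - i : ℕ) : ℤ)) : ℝ) =
            ∑ i ∈ range G.natDegree, (G.coeff i : ℝ) *
            (R' (u + k - (h : ℤ) * ((G.natDegree - i : ℕ) : ℤ)) : ℝ) := by
          refine Finset.sum_congr rfl fun i hi => ?_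
          rw [Finset.mem_range, ← hDdef] at hi
          rw [← hDdef]
          obtain ⟨e4, e5, e6⟩ := hpt (D - i) (by omega) (by omega)
          have e7 := ih (u + k - (h : ℤ) * ((D - i : ℕ) : ℤ) - u).toNat (by omega)
          rw [Int.toNat_of_nonneg (by linarith), add_sub_cancel] at e7
          rw [e7 (by linarith) e6]
        rw [e3] at e1
        have e5 : (R (u + k) : ℝ) = (R' (u + k) : ℝ) := by linarith
        exact_mod_cast e5
  -- claim F, left
  have claimFl : ∀ k : ℕ, 0 ≤ u - k → u - (k : ℤ) ∉ B → R (u - k) = R' (u - k) := by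
    intro k
    induction k using Nat.strong_induction_on with
    | _ k ih =>
      intro hkN hkB
      rcases Nat.eq_zero_or_pos k with rfl | hk
      · have := claimC' 0 (by nlinarith [hD])
        simpa using this.symm
      · obtain ⟨h, hh, hhT, hstep⟩ := choose_step B D (k - 1 + l) (by omega) 1 (by norm_num)
          (u - k)
        have hpt : ∀ s : ℕ, 1 ≤ s → s ≤ D → u - k < u - k + (h : ℤ) * s ∧
            u - (k:ℤ) + h * s < u + l ∧ u - (k : ℤ) + h * s ∉ B := by
          intro s hs1 hs2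
          have e1 : h * s ≤ k - 1 + l := (Nat.mul_le_mul_left _ hs2).trans hhT
          have e2 : ((h * s : ℕ) : ℤ) ≤ ((k - 1 + l : ℕ) : ℤ) := by exact_mod_cast e1
          have e3 : 1 ≤ h * s := Nat.mul_pos hh hs1
          have e4 : (1 : ℤ) ≤ ((h * s : ℕ) : ℤ) := by exact_mod_cast e3
          push_cast [Nat.cast_sub (show 1 ≤ k from hk)] at e2 e4
          refine ⟨by linarith, by linarith, ?_⟩
          have := hstep s hs1 hs2
          rwa [one_mul] at this
        have hptR : ∀ s : ℕ, 1 ≤ s → s ≤ D →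
            R (u - k + (h : ℤ) * s) = R' (u - k + (h : ℤ) * s) := by
          intro s hs1 hs2
          obtain ⟨e4, e5, e6⟩ := hpt s hs1 hs2
          rcases lt_or_ge (u - (k : ℤ) + h * s) u with hlt | hge
          · have e7 := ih (u - (u - (k : ℤ) + h * s)).toNat (by omega)
            rw [Int.toNat_of_nonneg (by linarith), sub_sub_cancel] at e7
            exact e7 (by linarith) e6
          · exact (claimC _ hge e5).symm
        have e1 := claimA h (u - k) hh (by
          intro i hi
          rcases Nat.eq_zero_or_pos i with rfl | hi'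
          · simp only [Nat.cast_zero, mul_zero, add_zero]
            exact ⟨by omega, by omega, hkB⟩
          · obtain ⟨e2, e3, e4⟩ := hpt i hi' hi
            exact ⟨by linarith, by linarith, e4⟩)
        have e2 := claimE h hh (u - k)
        rw [rc_left G] at e1 e2
        have e3 : ∑ i ∈ range G.natDegree, (G.coeff (i + 1) : ℝ) *
            (R (u - k + (h : ℤ) * ((i + 1 : ℕ) : ℤ)) : ℝ) =
            ∑ i ∈ range G.natDegree, (G.coeff (i + 1) : ℝ) *
            (R' (u - k + (h : ℤ) * ((i + 1 : ℕ) : ℤ)) : ℝ) := by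
          refine Finset.sum_congr rfl fun i hi => ?_
          rw [Finset.mem_range, ← hDdef] at hi
          rw [hptR (i + 1) (by omega) (by omega)]
        rw [e3] at e1
        have e5 : (G.coeff 0 : ℝ) * (R (u - k) : ℝ) = (G.coeff 0 : ℝ) * (R' (u - k) : ℝ) := by
          linarith
        have e6 : (G.coeff 0 : ℝ) ≠ 0 := by exact_mod_cast hG0
        have e7 := mul_left_cancel₀ e6 e5
        exact_mod_cast e7
  have claimF : ∀ j : ℤ, 0 ≤ j → j < N → j ∉ B → R j = R' j := by
    intro j h1 h2 h3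
    rcases le_total u j with h | h
    · have := claimFr (j - u).toNat
      rw [Int.toNat_of_nonneg (by omega), add_sub_cancel] at this
      exact this h2 h3
    · have := claimFl (u - j).toNat
      rw [Int.toNat_of_nonneg (by omega), sub_sub_cancel] at this
      exact this h1 h3
  have hgoodη : ∀ j : ℤ, 0 ≤ j → j < N → j ∉ B → |P j - (R' j : ℝ)| ≤ η := by
    intro j h1 h2 h3
    rw [← claimF j h1 h2 h3]
    exact hB j h1 h2 h3
  have he : ∀ h : ℕ, 1 ≤ h → ∀ j, rc G h (fun j => P j - (R' j : ℝ)) j = 0 := by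
    intro h hh j
    rw [rc_sub, hP h hh, claimE h hh, sub_zero]
  refine ⟨R', claimE, ?_⟩
  intro j hj0 hjN
  refine lt_of_le_of_lt ?_ hWη
  rcases le_total (N : ℤ) (2 * j) with hj2 | hj2
  · -- go left
    obtain ⟨h, hh, hhT, hstep⟩ := choose_step B D j.toNat (by omega) (-1) (by norm_num) j
    have e1 := he h hh (j - h * D)
    rw [hDdef, rc_right G hm] at e1
    have e2 : P j - (R' j : ℝ) = - ∑ i ∈ range G.natDegree, (G.coeff i : ℝ) *
        (P (j - h * ((G.natDegree - i : ℕ) : ℤ)) - (R' (j - h * ((G.natDegree - i : ℕ) : ℤ)) : ℝ)) := by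
      linarith
    rw [e2, abs_neg]
    calc _ ≤ ∑ i ∈ range G.natDegree, |(G.coeff i : ℝ)| * η := by
            refine (Finset.abs_sum_le_sum_abs _ _).trans (Finset.sum_le_sum fun i hi => ?_)
            rw [abs_mul]
            rw [Finset.mem_range, ← hDdef] at hi
            have e3 : h * (D - i) ≤ j.toNat := (Nat.mul_le_mul_left _ (by omega)).trans hhT
            have e4 : ((h * (D - i) : ℕ) : ℤ) ≤ j := by omega
            have e5 : (0 : ℤ) ≤ ((h * (D - i) : ℕ) : ℤ) := by positivity
            rw [Nat.cast_mul] at e4 e5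
            have e6 := hstep (D - i) (by omega) (by omega)
            have e7 : j + -1 * ((h : ℤ) * ((D - i : ℕ) : ℤ)) = j - h * ((D - i : ℕ) : ℤ) := by ring
            rw [e7] at e6
            rw [← hDdef]
            exact mul_le_mul_of_nonneg_left (hgoodη _ (by linarith) (by linarith) e6) (abs_nonneg _)
      _ = (∑ i ∈ range G.natDegree, |(G.coeff i : ℝ)|) * η := by rw [Finset.sum_mul]
      _ ≤ W * η := by
          refine mul_le_mul_of_nonneg_right (le_trans ?_ hW) hη
          rw [← hDdef]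
          exact Finset.sum_le_sum_of_subset_of_nonneg (Finset.range_mono (Nat.le_succ _))
            (fun _ _ _ => abs_nonneg _)
  · -- go right
    obtain ⟨h, hh, hhT, hstep⟩ := choose_step B D (N - 1 - j).toNat (by
      have hl1' : D * (B.card * D + 1) + 1 ≤ l := by
        have : D * (B.card * D + 1) + D ≤ l := by
          rw [hl]
          calc D * (B.card * D + 1) + D = D * (B.card * D + 2) := by ring
            _ ≤ D * (B.card * D + 2 + H) := Nat.mul_le_mul_left _ (by omega)
        omega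
      omega) 1 (by norm_num) j
    have e1 := he h hh j
    rw [rc_left G] at e1
    have e2 : (G.coeff 0 : ℝ) * (P j - (R' j : ℝ)) = - ∑ i ∈ range G.natDegree,
        (G.coeff (i + 1) : ℝ) *
        (P (j + h * ((i + 1 : ℕ) : ℤ)) - (R' (j + h * ((i + 1 : ℕ) : ℤ)) : ℝ)) := by
      linarith
    have e3 : |P j - (R' j : ℝ)| = |(G.coeff 0 : ℝ) * (P j - (R' j : ℝ))| := by
      rw [abs_mul, hG0abs, one_mul]
    rw [e3, e2, abs_neg]
    calc _ ≤ ∑ i ∈ range G.natDegree, |(G.coeff (i + 1) : ℝ)| * η := by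
            refine (Finset.abs_sum_le_sum_abs _ _).trans (Finset.sum_le_sum fun i hi => ?_)
            rw [abs_mul]
            rw [Finset.mem_range, ← hDdef] at hi
            have e3 : h * (i + 1) ≤ (N - 1 - j).toNat := (Nat.mul_le_mul_left _ (by omega)).trans hhT
            have e4 : ((h * (i + 1) : ℕ) : ℤ) ≤ N - 1 - j := by omega
            have e5 : (0 : ℤ) ≤ ((h * (i + 1) : ℕ) : ℤ) := by positivity
            rw [Nat.cast_mul] at e4 e5
            have e6 := hstep (i + 1) (by omega) (by omega)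
            rw [one_mul] at e6
            exact mul_le_mul_of_nonneg_left (hgoodη _ (by linarith) (by linarith) e6) (abs_nonneg _)
      _ = (∑ i ∈ range G.natDegree, |(G.coeff (i + 1) : ℝ)|) * η := by rw [Finset.sum_mul]
      _ ≤ W * η := by
          refine mul_le_mul_of_nonneg_right (le_trans ?_ hW) hη
          rw [Finset.sum_range_succ']
          linarith [abs_nonneg (G.coeff 0 : ℝ)]

end K3h61.LW
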